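import Pool.Agent.Helper78.CD.B5

/-!
# CD-B6: the exponent can be decreased; cubic decoupling
-/

open MeasureTheory Real Set Filter Topology

set_option autoImplicit false

namespace Pool.Agent.Helper78.CD

open Pool.Agent.Helper22.AE
open Pool.Agent.Helper22.AC (sep desc_lt)

private lemma sum_six {ι : Type*} (s : Finset ι) (x : ι → ℝ) (hx : ∀ i ∈ s, 0 ≤ x i) :
    ∑ i ∈ s, x i ^ 6 ≤ (∑ i ∈ s, x i) ^ 6 := by
  have h1 : ∀ i ∈ s, x i ^ 6 ≤ x i * (∑ i ∈ s, x i) ^ 5 := by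
    intro i hi
    have h2 : x i ≤ ∑ i ∈ s, x i := Finset.single_le_sum hx hi
    have h3 : x i ^ 5 ≤ (∑ i ∈ s, x i) ^ 5 := pow_le_pow_left₀ (hx i hi) h2 5
    calc x i ^ 6 = x i * x i ^ 5 := by ring
      _ ≤ x i * (∑ i ∈ s, x i) ^ 5 := mul_le_mul_of_nonneg_left h3 (hx i hi)
  calc ∑ i ∈ s, x i ^ 6 ≤ ∑ i ∈ s, x i * (∑ i ∈ s, x i) ^ 5 := Finset.sum_le_sum h1
    _ = (∑ i ∈ s, x i) ^ 6 := by rw [← Finset.sum_mul]; ring

theorem dec_step {Ω : Type} [MeasurableSpace Ω] {μ : Measure Ω} [IsFiniteMeasure μ] {M m : ℕ} {g : ℕ → ℕ → Ω → ℂ}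
    (hg : Sys3 μ M m g) (hM : 1 ≤ M) {ε lam C C₂ : ℝ} (hε : 0 < ε) (hMε : (2 : ℝ) ^ 48 ≤ (M : ℝ) ^ (6 * ε)) (hlam : ε ≤ lam)
    (hC : 1 ≤ C) (hC₂ : 1 ≤ C₂) {N : ℕ} (hN : 4 / ε ≤ N) (hdec : Dec μ M m g lam C)
    (hdes : ∀ (a b₁ b₂ : ℕ) (A : ℝ), 0 ≤ A → b₁ ≤ b₂ → a + 1 + b₂ ≤ m → BilB μ M m g a b₂ b₂ A →
        BilB μ M m g a b₁ b₂ (C₂ ^ 3 * (M : ℝ) ^ (3 * (ε / 3) * (b₂ : ℝ)) * A)) :
    Dec μ M m g (max (lam - 1 / (6 * 3 ^ N)) ε) ((9 * 2 ^ 23 * (M : ℝ) ^ 30 * C₂ ^ 2 * C ^ 6) ^ (1 / 6 : ℝ)) := by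
  set lam' : ℝ := max (lam - 1 / (6 * 3 ^ N)) ε with hlam'
  set K₀ : ℝ := 9 * 2 ^ 23 * (M : ℝ) ^ 30 * C₂ ^ 2 * C ^ 6 with hK₀
  have hM' : (1 : ℝ) ≤ M := by exact_mod_cast hM
  have hM0 : (0 : ℝ) < M := by linarith
  have hM30 : (1 : ℝ) ≤ (M : ℝ) ^ 30 := one_le_pow₀ hM'
  have hC6 : (1 : ℝ) ≤ C ^ 6 := one_le_pow₀ hC
  have hC₂2 : (1 : ℝ) ≤ C₂ ^ 2 := one_le_pow₀ hC₂
  have hCC : (1 : ℝ) ≤ C₂ ^ 2 * C ^ 6 := one_le_mul_of_one_le_of_one_le hC₂2 hC6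
  have hK30 : (M : ℝ) ^ 30 ≤ K₀ := by
    have h1 : (M : ℝ) ^ 30 * 1 ≤ (M : ℝ) ^ 30 * (C₂ ^ 2 * C ^ 6) := mul_le_mul_of_nonneg_left hCC (by linarith)
    have h2 : (0 : ℝ) ≤ (M : ℝ) ^ 30 * (C₂ ^ 2 * C ^ 6) := by linarith
    have h3 : K₀ = 9 * 2 ^ 23 * ((M : ℝ) ^ 30 * (C₂ ^ 2 * C ^ 6)) := by rw [hK₀]; ring
    rw [h3]
    nlinarith [h1, h2]
  have hK₀1 : 1 ≤ K₀ := hM30.trans hK30
  have hK₀0 : 0 ≤ K₀ := by linarith
  have hl1 : ε ≤ lam' := le_max_right _ _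
  have hl2 : lam - 1 / (6 * 3 ^ N) ≤ lam' := le_max_left _ _
  have hl0 : 0 < lam' := lt_of_lt_of_le hε hl1
  have hMl : (2 : ℝ) ^ 48 ≤ (M : ℝ) ^ (6 * lam') :=
    hMε.trans (Real.rpow_le_rpow_of_exponent_le hM' (by linarith))
  have claim : ∀ l a : ℕ, a + l = m → ∀ j < M ^ a,
      n12 μ (g a j) ^ 6 ≤ K₀ * (M : ℝ) ^ (6 * lam' * (l : ℝ)) * SS μ M m g a j ^ 6 := by
    intro l
    induction l with
    | zero =>
      intro a ha j hj
      have ha' : a = m := by omega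
      subst ha'
      rw [SS_last, Nat.cast_zero, mul_zero, Real.rpow_zero, mul_one]
      have h1 : 0 ≤ n12 μ (g a j) ^ 6 := pow_nonneg (n12_nonneg _ _) 6
      nlinarith
    | succ l ih =>
      intro a ha j hj
      have hS : SS μ M m g a j = ∑ r ∈ Finset.range M, SS μ M m g (a + 1) (M * j + r) := by
        have h := SS_split μ M m g (s := a) (t := 1) j (by omega)
        rwa [pow_one] at h
      have hS0 : 0 ≤ SS μ M m g a j ^ 6 := pow_nonneg (SS_nonneg _ _ _ _ _ _) 6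
      rcases Nat.eq_zero_or_pos l with hl | hl
      · subst hl
        have ham : a + 1 = m := by omega
        have hadd : g a j = fun ω => ∑ r ∈ Finset.range M, g (a + 1) (M * j + r) ω :=
          funext (hg.bas.add a (by omega) j hj)
        have h1 := n12_sum_le μ M (fun r => g (a + 1) (M * j + r)) (fun r => hg.bas.meas _ _)
          (fun r => hg.bas.bdd _ _)
        have h2 : ∑ r ∈ Finset.range M, n12 μ (g (a + 1) (M * j + r)) = SS μ M m g a j := by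
          rw [hS]
          apply Finset.sum_congr rfl
          intro r _
          rw [ham, SS_last]
        rw [← hadd, h2] at h1
        have h3 : n12 μ (g a j) ^ 6 ≤ ((M : ℝ) ^ (11 / 6 : ℝ) * SS μ M m g a j) ^ 6 :=
          pow_le_pow_left₀ (n12_nonneg _ _) h1 6
        have h4 : ((M : ℝ) ^ (11 / 6 : ℝ)) ^ 6 = (M : ℝ) ^ 11 := by
          rw [← Real.rpow_natCast, ← Real.rpow_mul hM0.le, ← Real.rpow_natCast]
          norm_num
        rw [mul_pow, h4] at h3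
        have h5 : (M : ℝ) ^ 11 ≤ K₀ := (pow_le_pow_right₀ hM' (by norm_num)).trans hK30
        have h6 : (1 : ℝ) ≤ (M : ℝ) ^ (6 * lam' * ((0 + 1 : ℕ) : ℝ)) := by
          apply Real.one_le_rpow hM'
          positivity
        have h7 : (M : ℝ) ^ 11 ≤ K₀ * (M : ℝ) ^ (6 * lam' * ((0 + 1 : ℕ) : ℝ)) := by
          nlinarith
        exact h3.trans (mul_le_mul_of_nonneg_right h7 hS0)
      · obtain ⟨B, hB⟩ : ∃ B : ℕ, B = (l - 1) / 3 ^ N := ⟨_, rfl⟩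
        have hpow : 0 < 3 ^ N := by positivity
        have hB1 : 3 ^ N * B ≤ l - 1 := by
          rw [hB]
          exact Nat.mul_div_le _ _
        have hB2 : B ≤ l - 1 := by
          rw [hB]
          exact Nat.div_le_self _ _
        have hB3 : l ≤ 3 ^ N * (B + 1) := by
          have h1 := Nat.lt_mul_div_succ (l - 1) hpow
          rw [← hB] at h1
          omega
        clear hB
        have hbil := bil_chain hg hM (ε := ε / 3) (by positivity) (by linarith) hC hC₂ hdec hdes (a := a) (N := N)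
          (b₀ := B + 1) (by omega) (by rw [Nat.add_sub_cancel]; omega)
        have hone := one_level hg.bas hM (a := a) (b₀ := B + 1) hj (by omega) (by positivity) hbil
        have hcast : (m : ℝ) - a - 1 = l := by
          have : (m : ℝ) = a + (l + 1 : ℕ) := by
            rw [← ha]
            push_cast
            ring
          rw [this]
          push_cast
          ring
        have hcastB : (((B + 1 : ℕ) : ℝ)) - 1 = B := by
          push_cast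
          ring
        rw [hcast, hcastB] at hone
        -- first term
        have hfirst : ∑ r ∈ Finset.range M, n12 μ (g (a + 1) (M * j + r)) ^ 6 ≤
            K₀ * (M : ℝ) ^ (6 * lam' * (l : ℝ)) * SS μ M m g a j ^ 6 := by
          have h1 : ∀ r ∈ Finset.range M, n12 μ (g (a + 1) (M * j + r)) ^ 6 ≤
              K₀ * (M : ℝ) ^ (6 * lam' * (l : ℝ)) * SS μ M m g (a + 1) (M * j + r) ^ 6 := by
            intro r hr
            apply ih (a + 1) (by omega)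
            have h2 := desc_lt (M := M) (s := a) (t := 1) (r := r) hj (by rw [pow_one]; exact Finset.mem_range.1 hr)
            rwa [pow_one] at h2
          refine (Finset.sum_le_sum h1).trans ?_
          rw [← Finset.mul_sum, hS]
          apply mul_le_mul_of_nonneg_left _ (by positivity)
          exact sum_six _ _ fun r _ => SS_nonneg _ _ _ _ _ _
        -- second term
        have hlN : 12 ≤ 3 * lam * N := by
          have h1 : 4 / ε * ε = 4 := by field_simp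
          have h2 : 4 / ε * ε ≤ N * lam :=
            mul_le_mul hN hlam (by positivity) (by positivity)
          rw [h1] at h2
          linarith
        have hBr : (l : ℝ) / 3 ^ N ≤ B + 1 := by
          rw [div_le_iff₀ (by positivity)]
          have : ((l : ℕ) : ℝ) ≤ ((3 ^ N * (B + 1) : ℕ) : ℝ) := by exact_mod_cast hB3
          push_cast at this
          linarith
        have hexp : (18 + 10 * ((B : ℝ) + 1)) + (6 * lam * l - 3 * lam * N * B) ≤ 30 + 6 * lam' * l := by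
          have h1 : (0 : ℝ) ≤ B := Nat.cast_nonneg B
          have h2 : 12 * (B : ℝ) ≤ 3 * lam * N * B := mul_le_mul_of_nonneg_right hlN h1
          have h3 : (lam - 1 / (6 * 3 ^ N)) * (6 * l) ≤ lam' * (6 * l) :=
            mul_le_mul_of_nonneg_right hl2 (by positivity)
          have h4 : (lam - 1 / (6 * 3 ^ N)) * (6 * l) = 6 * lam * l - (l : ℝ) / 3 ^ N := by
            field_simp
          rw [h4] at h3
          nlinarith
        have hsecond : 2 ^ 23 * (M : ℝ) ^ (18 + 10 * (B + 1)) *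
            (9 * C₂ ^ 2 * C ^ 6 * (M : ℝ) ^ (6 * lam * l - 3 * lam * N * B)) ≤
            K₀ * (M : ℝ) ^ (6 * lam' * (l : ℝ)) := by
          have h1 : (M : ℝ) ^ (18 + 10 * (B + 1)) * (M : ℝ) ^ (6 * lam * l - 3 * lam * N * B) ≤
              (M : ℝ) ^ 30 * (M : ℝ) ^ (6 * lam' * (l : ℝ)) := by
            rw [← Real.rpow_natCast, ← Real.rpow_natCast, ← Real.rpow_add hM0, ← Real.rpow_add hM0]
            apply Real.rpow_le_rpow_of_exponent_le hM'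
            push_cast
            linarith
          calc 2 ^ 23 * (M : ℝ) ^ (18 + 10 * (B + 1)) *
              (9 * C₂ ^ 2 * C ^ 6 * (M : ℝ) ^ (6 * lam * l - 3 * lam * N * B))
              = (9 * 2 ^ 23 * C₂ ^ 2 * C ^ 6) * ((M : ℝ) ^ (18 + 10 * (B + 1)) *
                (M : ℝ) ^ (6 * lam * l - 3 * lam * N * B)) := by ring
            _ ≤ (9 * 2 ^ 23 * C₂ ^ 2 * C ^ 6) * ((M : ℝ) ^ 30 * (M : ℝ) ^ (6 * lam' * (l : ℝ))) :=
                mul_le_mul_of_nonneg_left h1 (by positivity)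
            _ = K₀ * (M : ℝ) ^ (6 * lam' * (l : ℝ)) := by rw [hK₀]; ring
        have hsum : K₀ * (M : ℝ) ^ (6 * lam' * ((l + 1 : ℕ) : ℝ)) =
            K₀ * (M : ℝ) ^ (6 * lam' * (l : ℝ)) * (M : ℝ) ^ (6 * lam') := by
          rw [mul_assoc K₀ ((M : ℝ) ^ (6 * lam' * (l : ℝ))), ← Real.rpow_add hM0]
          congr 2
          push_cast
          ring
        have hX : 0 ≤ K₀ * (M : ℝ) ^ (6 * lam' * (l : ℝ)) * SS μ M m g a j ^ 6 := by positivity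
        calc n12 μ (g a j) ^ 6 ≤ 2 ^ 47 * ∑ r ∈ Finset.range M, n12 μ (g (a + 1) (M * j + r)) ^ 6 +
              2 ^ 23 * (M : ℝ) ^ (18 + 10 * (B + 1)) *
                (9 * C₂ ^ 2 * C ^ 6 * (M : ℝ) ^ (6 * lam * l - 3 * lam * N * B)) * SS μ M m g a j ^ 6 := hone
          _ ≤ 2 ^ 47 * (K₀ * (M : ℝ) ^ (6 * lam' * (l : ℝ)) * SS μ M m g a j ^ 6) +
              K₀ * (M : ℝ) ^ (6 * lam' * (l : ℝ)) * SS μ M m g a j ^ 6 :=
                add_le_add (mul_le_mul_of_nonneg_left hfirst (by positivity))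
                  (mul_le_mul_of_nonneg_right hsecond hS0)
          _ = (K₀ * (M : ℝ) ^ (6 * lam' * (l : ℝ)) * SS μ M m g a j ^ 6) * (2 ^ 47 + 1) := by ring
          _ ≤ (K₀ * (M : ℝ) ^ (6 * lam' * (l : ℝ)) * SS μ M m g a j ^ 6) * (M : ℝ) ^ (6 * lam') :=
                mul_le_mul_of_nonneg_left (le_trans (by norm_num) hMl) hX
          _ = K₀ * (M : ℝ) ^ (6 * lam' * ((l + 1 : ℕ) : ℝ)) * SS μ M m g a j ^ 6 := by
                rw [hsum]
                ring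
  intro s hs j hj
  have h1 := claim (m - s) s (by omega) j hj
  have hcast : ((m - s : ℕ) : ℝ) = (m : ℝ) - s := by
    rw [Nat.cast_sub hs]
  rw [hcast] at h1
  have hS0 := SS_nonneg μ M m g s j
  have h2 : (n12 μ (g s j) ^ 6) ^ (1 / 6 : ℝ) ≤
      (K₀ * (M : ℝ) ^ (6 * lam' * ((m : ℝ) - s)) * SS μ M m g s j ^ 6) ^ (1 / 6 : ℝ) :=
    Real.rpow_le_rpow (pow_nonneg (n12_nonneg _ _) 6) h1 (by norm_num)
  have e1 : (n12 μ (g s j) ^ 6) ^ (1 / 6 : ℝ) = n12 μ (g s j) := by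
    rw [← Real.rpow_natCast, ← Real.rpow_mul (n12_nonneg _ _)]
    norm_num
  have e2 : (K₀ * (M : ℝ) ^ (6 * lam' * ((m : ℝ) - s)) * SS μ M m g s j ^ 6) ^ (1 / 6 : ℝ) =
      K₀ ^ (1 / 6 : ℝ) * (M : ℝ) ^ (lam' * ((m : ℝ) - s)) * SS μ M m g s j := by
    rw [Real.mul_rpow (by positivity) (by positivity), Real.mul_rpow hK₀0 (by positivity),
      ← Real.rpow_mul hM0.le, ← Real.rpow_natCast (SS μ M m g s j), ← Real.rpow_mul hS0]
    congr 1
    · congr 2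
      ring
    · norm_num
  rw [e1, e2] at h2
  exact h2

private lemma dec_zero {Ω : Type} [MeasurableSpace Ω] {μ : Measure Ω} [IsFiniteMeasure μ] {M m : ℕ}
    {g : ℕ → ℕ → Ω → ℂ} (hg : Bas M m g) (hM : 1 ≤ M) {lam : ℝ} (hlam : 11 / 6 ≤ lam) :
    Dec μ M m g lam 1 := by
  intro s hs j hj
  have hM' : (1 : ℝ) ≤ M := by exact_mod_cast hM
  have h1 : g s j = fun ω => ∑ r ∈ Finset.range (M ^ (m - s)), g m (M ^ (m - s) * j + r) ω := by
    funext ω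
    rw [desc_sum hg (s := s) (t := m - s) (by omega) hj ω]
    simp only [Nat.add_sub_cancel' hs]
  have h2 := n12_sum_le μ (M ^ (m - s)) (fun r => g m (M ^ (m - s) * j + r)) (fun r => hg.meas _ _)
    (fun r => hg.bdd _ _)
  rw [h1]
  refine h2.trans ?_
  rw [one_mul]
  have h3 : (((M ^ (m - s) : ℕ) : ℝ)) ^ (11 / 6 : ℝ) ≤ (M : ℝ) ^ (lam * ((m : ℝ) - s)) := by
    rw [Nat.cast_pow, ← Real.rpow_natCast, ← Real.rpow_mul (by positivity), Nat.cast_sub hs]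
    apply Real.rpow_le_rpow_of_exponent_le hM'
    have h4 : (0 : ℝ) ≤ (m : ℝ) - s := by
      rw [sub_nonneg]
      exact_mod_cast hs
    nlinarith
  exact mul_le_mul_of_nonneg_right h3 (Finset.sum_nonneg fun r _ => n12_nonneg _ _)

private lemma dec_iter {ε : ℝ} (hε : 0 < ε) {M : ℕ} (hM : 1 ≤ M) {C₂ : ℝ} (hC₂ : 1 ≤ C₂)
    (hdes : ∀ (Ω : Type) [MeasurableSpace Ω] (μ : Measure Ω) [IsFiniteMeasure μ] (m : ℕ) (g : ℕ → ℕ → Ω → ℂ), Sys3 μ M m g →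
      ∀ (a b₁ b₂ : ℕ) (A : ℝ), 0 ≤ A → b₁ ≤ b₂ → a + 1 + b₂ ≤ m → BilB μ M m g a b₂ b₂ A →
        BilB μ M m g a b₁ b₂ (C₂ ^ 3 * (M : ℝ) ^ (3 * (ε / 3) * (b₂ : ℝ)) * A))
    (hMε : (2 : ℝ) ^ 48 ≤ (M : ℝ) ^ (6 * ε)) {N : ℕ} (hN : 4 / ε ≤ N) (k : ℕ) :
    ∃ C : ℝ, 1 ≤ C ∧ ∀ (Ω : Type) [MeasurableSpace Ω] (μ : Measure Ω) [IsFiniteMeasure μ] (m : ℕ)
      (g : ℕ → ℕ → Ω → ℂ), Sys3 μ M m g →
      Dec μ M m g (max (11 / 6 - (k : ℝ) * (1 / (6 * 3 ^ N))) ε) C := by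
  induction k with
  | zero =>
    refine ⟨1, le_rfl, fun Ω _ μ _ m g hg => dec_zero hg.bas hM ?_⟩
    rw [Nat.cast_zero, zero_mul, sub_zero]
    exact le_max_left _ _
  | succ k ih =>
    obtain ⟨C, hC, h⟩ := ih
    have hM' : (1 : ℝ) ≤ M := by exact_mod_cast hM
    refine ⟨(9 * 2 ^ 23 * (M : ℝ) ^ 30 * C₂ ^ 2 * C ^ 6) ^ (1 / 6 : ℝ), ?_, fun Ω _ μ _ m g hg => ?_⟩
    · apply Real.one_le_rpow _ (by norm_num)
      have h1 : (1 : ℝ) ≤ (M : ℝ) ^ 30 := one_le_pow₀ hM'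
      have h2 : (1 : ℝ) ≤ C ^ 6 := one_le_pow₀ hC
      have h3 : (1 : ℝ) ≤ C₂ ^ 2 := one_le_pow₀ hC₂
      have h4 : (1 : ℝ) ≤ (M : ℝ) ^ 30 * (C₂ ^ 2 * C ^ 6) :=
        one_le_mul_of_one_le_of_one_le h1 (one_le_mul_of_one_le_of_one_le h3 h2)
      have h5 : 9 * 2 ^ 23 * (M : ℝ) ^ 30 * C₂ ^ 2 * C ^ 6 = 9 * 2 ^ 23 * ((M : ℝ) ^ 30 * (C₂ ^ 2 * C ^ 6)) := by ring
      rw [h5]
      nlinarith
    · have h1 := dec_step hg hM hε hMε (le_max_right _ _) hC hC₂ hN (h Ω μ m g hg) (hdes Ω μ m g hg)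
      have hd : (0 : ℝ) < 1 / (6 * 3 ^ N) := by positivity
      have h2 : max (max (11 / 6 - (k : ℝ) * (1 / (6 * 3 ^ N))) ε - 1 / (6 * 3 ^ N)) ε =
          max (11 / 6 - ((k + 1 : ℕ) : ℝ) * (1 / (6 * 3 ^ N))) ε := by
        push_cast
        rcases le_total (11 / 6 - (k : ℝ) * (1 / (6 * 3 ^ N))) ε with h3 | h3
        · rw [max_eq_right h3, max_eq_right (by linarith), max_eq_right (by linarith)]
        · rw [max_eq_left h3]
          congr 1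
          ring
      rwa [h2] at h1

/-- Cubic decoupling (exponent `12`) for systems with the cubic orthogonality relations. -/
theorem decoupling {ε : ℝ} (hε : 0 < ε) : ∃ M0 : ℕ, 1 ≤ M0 ∧ ∀ M : ℕ, M0 ≤ M → ∃ C : ℝ, 1 ≤ C ∧
    ∀ (Ω : Type) [MeasurableSpace Ω] (μ : Measure Ω) [IsFiniteMeasure μ] (m : ℕ) (g : ℕ → ℕ → Ω → ℂ), Sys3 μ M m g →
      n12 μ (g 0 0) ≤ C * (M : ℝ) ^ (ε * (m : ℝ)) * ∑ r ∈ Finset.range (M ^ m), n12 μ (g m r) := by
  obtain ⟨N, hN⟩ : ∃ N : ℕ, 4 / ε ≤ N := exists_nat_ge _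
  obtain ⟨K, hK⟩ : ∃ K : ℕ, ((2 : ℝ) ^ 48) ^ (1 / (6 * ε)) ≤ K := exists_nat_ge _
  obtain ⟨M1, hM1, hdes⟩ := descend (ε := ε / 3) (by positivity)
  refine ⟨max (K + 1) M1, by omega, fun M hM => ?_⟩
  have hMK : K + 1 ≤ M := (le_max_left _ _).trans hM
  have hMM1 : M1 ≤ M := (le_max_right _ _).trans hM
  have hM1' : 1 ≤ M := by omega
  obtain ⟨C₂, hC₂, hd⟩ := hdes M hMM1
  have hMε : (2 : ℝ) ^ 48 ≤ (M : ℝ) ^ (6 * ε) := by
    have h1 : ((2 : ℝ) ^ 48) ^ (1 / (6 * ε)) ≤ M := hK.trans (by exact_mod_cast (by omega : K ≤ M))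
    have h2 : (((2 : ℝ) ^ 48) ^ (1 / (6 * ε))) ^ (6 * ε) ≤ (M : ℝ) ^ (6 * ε) :=
      Real.rpow_le_rpow (by positivity) h1 (by positivity)
    have h3 : (((2 : ℝ) ^ 48) ^ (1 / (6 * ε))) ^ (6 * ε) = (2 : ℝ) ^ 48 := by
      rw [← Real.rpow_mul (by positivity)]
      have : 1 / (6 * ε) * (6 * ε) = 1 := by field_simp
      rw [this, Real.rpow_one]
    rwa [h3] at h2
  obtain ⟨C, hC, h⟩ := dec_iter hε hM1' hC₂ hd hMε hN (11 * 3 ^ N)
  refine ⟨C, hC, fun Ω _ μ _ m g hg => ?_⟩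
  have h1 := h Ω μ m g hg 0 (Nat.zero_le _) 0 (by simp)
  have h2 : max (11 / 6 - ((11 * 3 ^ N : ℕ) : ℝ) * (1 / (6 * 3 ^ N))) ε = ε := by
    apply max_eq_right
    have h3 : ((11 * 3 ^ N : ℕ) : ℝ) * (1 / (6 * 3 ^ N)) = 11 / 6 := by
      push_cast
      field_simp
    rw [h3]
    linarith
  rw [h2] at h1
  unfold SS at h1
  simpa using h1

end Pool.Agent.Helper78.CD
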