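import Pool.Agent.Helper22.AC.Defs

/-!
# CD (helper78): cubic decoupling from orthogonality relations, definitions

The analogue for the exponent `12` and `cubic` systems of `Helper22.AC` (`Sys`, `decoupling`, exponent `6`).

`Sys3 μ M m g`: an `M`-adic system with two families of relations. Let `J` be the arc `(a+1+b, j)` and let `I` lie in the same arc of level `a`,
the ancestors of `I` and `J` at level `a+1` being at distance at least two.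
(1) `c + 1 ≤ 3 b`, `I', I''` arcs of level `a+1+c` with the same ancestor at level `a+1`, `|I' - I''| ≥ 2`: `∫ g_{I'} conj g_{I''} |g_J|^10 = 0`.
(2) Below the arc of level `a+1` of `I`, down to the level of `J`, the system satisfies the relations of `Sys` for the measure `|g_J|^6 μ`.
-/

open MeasureTheory Real Set Filter Topology

set_option autoImplicit false

namespace Pool.Agent.Helper78.CD

open Pool.Agent.Helper22.AC (sep)

/-- the square of the `L¹²` norm -/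
noncomputable def n12 {Ω : Type} [MeasurableSpace Ω] (μ : Measure Ω) (f : Ω → ℂ) : ℝ :=
  (∫ ω, ‖f ω‖ ^ 12 ∂μ) ^ (1 / 6 : ℝ)

/-- the structural part: measurable, bounded, additive -/
structure Bas {Ω : Type} [MeasurableSpace Ω] (M m : ℕ) (g : ℕ → ℕ → Ω → ℂ) : Prop where
  meas : ∀ s j, Measurable (g s j)
  bdd : ∀ s j, ∃ B : ℝ, ∀ ω, ‖g s j ω‖ ≤ B
  add : ∀ s < m, ∀ j < M ^ s, ∀ ω, g s j ω = ∑ r ∈ Finset.range M, g (s + 1) (M * j + r) ω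

/-- an `M`-adic system of depth `m` with the cubic orthogonality relations -/
structure Sys3 {Ω : Type} [MeasurableSpace Ω] (μ : Measure Ω) (M m : ℕ) (g : ℕ → ℕ → Ω → ℂ) : Prop where
  bas : Bas M m g
  orth1 : ∀ a b c : ℕ, c + 1 ≤ 3 * b → a + 1 + b ≤ m → a + 1 + c ≤ m →
    ∀ j < M ^ (a + 1 + b), ∀ i < M ^ (a + 1 + c), ∀ i' < M ^ (a + 1 + c),
      j / M ^ (b + 1) = i / M ^ (c + 1) → i / M ^ c = i' / M ^ c → sep (i / M ^ c) (j / M ^ b) → sep i i' →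
        ∫ ω, g (a + 1 + c) i ω * (starRingEnd ℂ) (g (a + 1 + c) i' ω) *
          ((‖g (a + 1 + b) j ω‖ ^ 10 : ℝ) : ℂ) ∂μ = 0
  orth2 : ∀ a b d p q : ℕ, q + 1 ≤ 2 * p → a + 1 + b ≤ m → d + 1 + p ≤ b → d + 1 + q ≤ b →
    ∀ j < M ^ (a + 1 + b), ∀ k < M ^ (a + 1 + (d + 1 + p)), ∀ i < M ^ (a + 1 + (d + 1 + q)),
      ∀ i' < M ^ (a + 1 + (d + 1 + q)),
      j / M ^ (b + 1) = k / M ^ (d + 1 + p + 1) → sep (k / M ^ (d + 1 + p)) (j / M ^ b) →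
      k / M ^ (p + 1) = i / M ^ (q + 1) → i / M ^ q = i' / M ^ q → sep (i / M ^ q) (k / M ^ p) → sep i i' →
        ∫ ω, g (a + 1 + (d + 1 + q)) i ω * (starRingEnd ℂ) (g (a + 1 + (d + 1 + q)) i' ω) *
          ((‖g (a + 1 + (d + 1 + p)) k ω‖ ^ 4 : ℝ) : ℂ) * ((‖g (a + 1 + b) j ω‖ ^ 6 : ℝ) : ℂ) ∂μ = 0

/-- sum of `n12` over the descendants of the arc `(s, j)` at the last level `m` -/
noncomputable def SS {Ω : Type} [MeasurableSpace Ω] (μ : Measure Ω) (M m : ℕ) (g : ℕ → ℕ → Ω → ℂ) (s j : ℕ) : ℝ :=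
  ∑ r ∈ Finset.range (M ^ (m - s)), n12 μ (g m (M ^ (m - s) * j + r))

/-- the decoupling inequality with exponent `lam` for all arcs of the system -/
def Dec {Ω : Type} [MeasurableSpace Ω] (μ : Measure Ω) (M m : ℕ) (g : ℕ → ℕ → Ω → ℂ) (lam C : ℝ) : Prop :=
  ∀ s ≤ m, ∀ j < M ^ s, n12 μ (g s j) ≤ C * (M : ℝ) ^ (lam * ((m : ℝ) - s)) * SS μ M m g s j

/-- the `(2, 10)` bilinear inequality between the levels `a + 1 + b₁` and `a + 1 + b₂` inside one arc of level `a` -/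
def BilA {Ω : Type} [MeasurableSpace Ω] (μ : Measure Ω) (M m : ℕ) (g : ℕ → ℕ → Ω → ℂ) (a b₁ b₂ : ℕ) (A : ℝ) : Prop :=
  ∀ i < M ^ (a + 1 + b₁), ∀ j < M ^ (a + 1 + b₂), i / M ^ (b₁ + 1) = j / M ^ (b₂ + 1) →
    sep (i / M ^ b₁) (j / M ^ b₂) →
      ∫ ω, ‖g (a + 1 + b₁) i ω‖ ^ 2 * ‖g (a + 1 + b₂) j ω‖ ^ 10 ∂μ ≤
        A * SS μ M m g (a + 1 + b₁) i * SS μ M m g (a + 1 + b₂) j ^ 5

/-- the `(6, 6)` bilinear inequality -/
def BilB {Ω : Type} [MeasurableSpace Ω] (μ : Measure Ω) (M m : ℕ) (g : ℕ → ℕ → Ω → ℂ) (a b₁ b₂ : ℕ) (A : ℝ) : Prop :=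
  ∀ i < M ^ (a + 1 + b₁), ∀ j < M ^ (a + 1 + b₂), i / M ^ (b₁ + 1) = j / M ^ (b₂ + 1) →
    sep (i / M ^ b₁) (j / M ^ b₂) →
      ∫ ω, ‖g (a + 1 + b₁) i ω‖ ^ 6 * ‖g (a + 1 + b₂) j ω‖ ^ 6 ∂μ ≤
        A * SS μ M m g (a + 1 + b₁) i ^ 3 * SS μ M m g (a + 1 + b₂) j ^ 3

/-- the measure `|f|^6 μ` -/
noncomputable def wm {Ω : Type} [MeasurableSpace Ω] (μ : Measure Ω) (f : Ω → ℂ) : Measure Ω :=
  μ.withDensity fun ω => ENNReal.ofReal (‖f ω‖ ^ 6)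

end Pool.Agent.Helper78.CD
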