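import Pool.Agent.Helper78.CD.Defs
import Pool.Agent.Helper22.AC.A5

/-!
# CD-B0: descendants, the sums `SS`, the norm `n12`
-/

open MeasureTheory Real Set Filter Topology

set_option autoImplicit false

namespace Pool.Agent.Helper78.CD

open Pool.Agent.Helper22.AC (sep sum_range_mul' desc_lt desc_div)

theorem desc_sum {Ω : Type} [MeasurableSpace Ω] {M m : ℕ} {g : ℕ → ℕ → Ω → ℂ} (hg : Bas M m g)
    {s t j : ℕ} (h : s + t ≤ m) (hj : j < M ^ s) (ω : Ω) :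
    g s j ω = ∑ r ∈ Finset.range (M ^ t), g (s + t) (M ^ t * j + r) ω := by
  induction t with
  | zero => simp
  | succ t ih =>
    rw [ih (by omega), pow_succ, sum_range_mul']
    refine Finset.sum_congr rfl fun r hr => ?_
    rw [hg.add (s + t) (by omega) _ (desc_lt hj (Finset.mem_range.1 hr)) ω]
    refine Finset.sum_congr rfl fun r' _ => ?_
    have e1 : M * (M ^ t * j + r) + r' = M ^ t * M * j + (M * r + r') := by ring
    rw [e1, add_assoc]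

theorem n12_nonneg {Ω : Type} [MeasurableSpace Ω] (μ : Measure Ω) (f : Ω → ℂ) : 0 ≤ n12 μ f := by
  unfold n12
  exact Real.rpow_nonneg (integral_nonneg fun ω => by positivity) _

theorem n12_six {Ω : Type} [MeasurableSpace Ω] (μ : Measure Ω) (f : Ω → ℂ) : n12 μ f ^ 6 = ∫ ω, ‖f ω‖ ^ 12 ∂μ := by
  unfold n12
  have h : 0 ≤ ∫ ω, ‖f ω‖ ^ 12 ∂μ := integral_nonneg fun ω => by positivity
  rw [← Real.rpow_natCast, ← Real.rpow_mul h]
  norm_num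

theorem SS_nonneg {Ω : Type} [MeasurableSpace Ω] (μ : Measure Ω) (M m : ℕ) (g : ℕ → ℕ → Ω → ℂ) (s j : ℕ) :
    0 ≤ SS μ M m g s j := by
  unfold SS
  exact Finset.sum_nonneg fun r _ => n12_nonneg _ _

theorem SS_split {Ω : Type} [MeasurableSpace Ω] (μ : Measure Ω) (M m : ℕ) (g : ℕ → ℕ → Ω → ℂ) {s t : ℕ} (j : ℕ)
    (h : s + t ≤ m) : SS μ M m g s j = ∑ r ∈ Finset.range (M ^ t), SS μ M m g (s + t) (M ^ t * j + r) := by
  unfold SS
  obtain ⟨u, hu⟩ : ∃ u, m = s + t + u := ⟨m - (s + t), by omega⟩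
  have h1 : m - s = t + u := by omega
  have h2 : m - (s + t) = u := by omega
  rw [h1, h2, pow_add, sum_range_mul']
  refine Finset.sum_congr rfl fun r _ => Finset.sum_congr rfl fun r' _ => ?_
  have e1 : M ^ t * M ^ u * j + (M ^ u * r + r') = M ^ u * (M ^ t * j + r) + r' := by ring
  rw [e1]

theorem SS_last {Ω : Type} [MeasurableSpace Ω] (μ : Measure Ω) (M m : ℕ) (g : ℕ → ℕ → Ω → ℂ) (j : ℕ) :
    SS μ M m g m j = n12 μ (g m j) := by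
  unfold SS
  simp

theorem intg {Ω : Type} [MeasurableSpace Ω] {μ : Measure Ω} [IsFiniteMeasure μ] {f g : Ω → ℂ}
    (hf : Measurable f) (hg : Measurable g) (hfb : ∃ B : ℝ, ∀ ω, ‖f ω‖ ≤ B)
    (hgb : ∃ B : ℝ, ∀ ω, ‖g ω‖ ≤ B) (p q : ℕ) :
    Integrable (fun ω => ‖f ω‖ ^ p * ‖g ω‖ ^ q) μ :=
  Pool.Agent.Helper22.AC.a5_intg hf hg hfb hgb p q

theorem pow_bdd {Ω : Type} {f : Ω → ℂ} (hb : ∃ B : ℝ, ∀ ω, ‖f ω‖ ≤ B) (n : ℕ) :
    ∃ B : ℝ, 0 ≤ B ∧ ∀ ω, ‖f ω‖ ^ n ≤ B := by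
  obtain ⟨B, hB⟩ := hb
  refine ⟨|B| ^ n, by positivity, fun ω => ?_⟩
  exact pow_le_pow_left₀ (norm_nonneg _) ((hB ω).trans (le_abs_self B)) n

/-- Hölder for powers: `∫ |f|^p |g|^q ≤ (∫ |f|^(p r))^(1/r) (∫ |g|^(q r'))^(1/r')` with integer exponents -/
theorem holder_pow {Ω : Type} [MeasurableSpace Ω] (μ : Measure Ω) [IsFiniteMeasure μ] {u v : Ω → ℝ}
    (hu : Measurable u) (hv : Measurable v) (hu0 : ∀ ω, 0 ≤ u ω) (hv0 : ∀ ω, 0 ≤ v ω)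
    (hub : ∃ B : ℝ, ∀ ω, u ω ≤ B) (hvb : ∃ B : ℝ, ∀ ω, v ω ≤ B) {p q : ℝ} (hpq : p.HolderConjugate q) :
    ∫ ω, u ω * v ω ∂μ ≤ (∫ ω, u ω ^ p ∂μ) ^ (1 / p) * (∫ ω, v ω ^ q ∂μ) ^ (1 / q) := by
  obtain ⟨B, hB⟩ := hub
  obtain ⟨C, hC⟩ := hvb
  exact integral_mul_le_Lp_mul_Lq_of_nonneg (μ := μ) hpq
    (f := u) (g := v) (Eventually.of_forall hu0) (Eventually.of_forall hv0)
    (MemLp.of_bound hu.aestronglyMeasurable B (Eventually.of_forall fun ω => by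
      rw [Real.norm_eq_abs, abs_of_nonneg (hu0 ω)]; exact hB ω))
    (MemLp.of_bound hv.aestronglyMeasurable C (Eventually.of_forall fun ω => by
      rw [Real.norm_eq_abs, abs_of_nonneg (hv0 ω)]; exact hC ω))

end Pool.Agent.Helper78.CD
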