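import Pool.Agent.Helper78.CD.B0

/-!
# CD-B1: inequalities for the twelfth moment
-/

open MeasureTheory Real Set Filter Topology

set_option autoImplicit false

namespace Pool.Agent.Helper78.CD

theorem n12_sum_le {Ω : Type} [MeasurableSpace Ω] (μ : Measure Ω) [IsFiniteMeasure μ] (N : ℕ) (f : ℕ → Ω → ℂ)
    (hm : ∀ r, Measurable (f r)) (hb : ∀ r, ∃ B : ℝ, ∀ ω, ‖f r ω‖ ≤ B) :
    n12 μ (fun ω => ∑ r ∈ Finset.range N, f r ω) ≤ (N : ℝ) ^ (11 / 6 : ℝ) * ∑ r ∈ Finset.range N, n12 μ (f r) := by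
  have hint : ∀ r, Integrable (fun ω => ‖f r ω‖ ^ 12) μ := fun r => by
    have := intg (μ := μ) (hm r) (hm r) (hb r) (hb r) 12 0
    simpa using this
  have hpt : ∀ ω, ‖∑ r ∈ Finset.range N, f r ω‖ ^ 12 ≤
      (N : ℝ) ^ 11 * ∑ r ∈ Finset.range N, ‖f r ω‖ ^ 12 := by
    intro ω
    rcases Nat.eq_zero_or_pos N with h0 | hN
    · subst h0
      simp
    have h1 : ‖∑ r ∈ Finset.range N, f r ω‖ ^ 12 ≤ (∑ r ∈ Finset.range N, ‖f r ω‖) ^ 12 :=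
      pow_le_pow_left₀ (norm_nonneg _) (norm_sum_le _ _) 12
    have h2 := pow_sum_div_card_le_sum_pow (s := Finset.range N) (f := fun r => ‖f r ω‖)
      (fun r _ => norm_nonneg _) 11
    rw [Finset.card_range, div_le_iff₀ (by positivity)] at h2
    calc ‖∑ r ∈ Finset.range N, f r ω‖ ^ 12 ≤ (∑ r ∈ Finset.range N, ‖f r ω‖) ^ 12 := h1
      _ ≤ (∑ r ∈ Finset.range N, ‖f r ω‖ ^ 12) * (N : ℝ) ^ 11 := h2
      _ = (N : ℝ) ^ 11 * ∑ r ∈ Finset.range N, ‖f r ω‖ ^ 12 := mul_comm _ _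
  have hS0 : 0 ≤ ∑ r ∈ Finset.range N, n12 μ (f r) :=
    Finset.sum_nonneg fun r _ => n12_nonneg μ (f r)
  have h3 : ∫ ω, ‖∑ r ∈ Finset.range N, f r ω‖ ^ 12 ∂μ ≤
      (N : ℝ) ^ 11 * (∑ r ∈ Finset.range N, n12 μ (f r)) ^ 6 := by
    calc ∫ ω, ‖∑ r ∈ Finset.range N, f r ω‖ ^ 12 ∂μ ≤
        ∫ ω, (N : ℝ) ^ 11 * ∑ r ∈ Finset.range N, ‖f r ω‖ ^ 12 ∂μ := by
          refine integral_mono_of_nonneg (Eventually.of_forall fun ω => by positivity) ?_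
            (Eventually.of_forall hpt)
          exact (integrable_finsetSum _ fun r _ => hint r).const_mul _
      _ = (N : ℝ) ^ 11 * ∑ r ∈ Finset.range N, ∫ ω, ‖f r ω‖ ^ 12 ∂μ := by
          rw [integral_const_mul, integral_finsetSum _ fun r _ => hint r]
      _ = (N : ℝ) ^ 11 * ∑ r ∈ Finset.range N, n12 μ (f r) ^ 6 := by
          congr 1
          exact Finset.sum_congr rfl fun r _ => (n12_six μ (f r)).symm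
      _ ≤ (N : ℝ) ^ 11 * (∑ r ∈ Finset.range N, n12 μ (f r)) ^ 6 := by
          refine mul_le_mul_of_nonneg_left ?_ (by positivity)
          have h4 : ∀ r ∈ Finset.range N, n12 μ (f r) ^ 6 ≤
              n12 μ (f r) * (∑ r ∈ Finset.range N, n12 μ (f r)) ^ 5 := by
            intro r hr
            have h5 : n12 μ (f r) ≤ ∑ r ∈ Finset.range N, n12 μ (f r) :=
              Finset.single_le_sum (f := fun r => n12 μ (f r)) (fun i _ => n12_nonneg μ (f i)) hr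
            have h6 : n12 μ (f r) ^ 5 ≤ (∑ r ∈ Finset.range N, n12 μ (f r)) ^ 5 :=
              pow_le_pow_left₀ (n12_nonneg μ _) h5 5
            calc n12 μ (f r) ^ 6 = n12 μ (f r) * n12 μ (f r) ^ 5 := by ring
              _ ≤ n12 μ (f r) * (∑ r ∈ Finset.range N, n12 μ (f r)) ^ 5 :=
                mul_le_mul_of_nonneg_left h6 (n12_nonneg μ _)
          calc ∑ r ∈ Finset.range N, n12 μ (f r) ^ 6 ≤
              ∑ r ∈ Finset.range N, n12 μ (f r) * (∑ r ∈ Finset.range N, n12 μ (f r)) ^ 5 :=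
                Finset.sum_le_sum h4
            _ = (∑ r ∈ Finset.range N, n12 μ (f r)) ^ 6 := by
                rw [← Finset.sum_mul]
                ring
  have h0 : 0 ≤ ∫ ω, ‖∑ r ∈ Finset.range N, f r ω‖ ^ 12 ∂μ :=
    integral_nonneg fun ω => by positivity
  calc n12 μ (fun ω => ∑ r ∈ Finset.range N, f r ω)
      = (∫ ω, ‖∑ r ∈ Finset.range N, f r ω‖ ^ 12 ∂μ) ^ (1 / 6 : ℝ) := rfl
    _ ≤ ((N : ℝ) ^ 11 * (∑ r ∈ Finset.range N, n12 μ (f r)) ^ 6) ^ (1 / 6 : ℝ) :=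
        Real.rpow_le_rpow h0 h3 (by norm_num)
    _ = (N : ℝ) ^ (11 / 6 : ℝ) * ∑ r ∈ Finset.range N, n12 μ (f r) := by
        rw [Real.mul_rpow (by positivity) (by positivity), ← Real.rpow_natCast,
          ← Real.rpow_natCast, ← Real.rpow_mul (Nat.cast_nonneg _), ← Real.rpow_mul hS0]
        norm_num

private theorem rpow_norm {x : ℝ} (hx : 0 ≤ x) (n k : ℕ) (p : ℝ) (h : (n : ℝ) * p = k) : (x ^ n) ^ p = x ^ k := by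
  rw [← Real.rpow_natCast x n, ← Real.rpow_mul hx, h, Real.rpow_natCast]

/-- `∫ |f|^6 |g|^6 ≤ n12(f)^3 n12(g)^3` -/
theorem holder66 {Ω : Type} [MeasurableSpace Ω] (μ : Measure Ω) [IsFiniteMeasure μ] {f g : Ω → ℂ} (hf : Measurable f)
    (hg : Measurable g) (hfb : ∃ B : ℝ, ∀ ω, ‖f ω‖ ≤ B) (hgb : ∃ B : ℝ, ∀ ω, ‖g ω‖ ≤ B) :
    ∫ ω, ‖f ω‖ ^ 6 * ‖g ω‖ ^ 6 ∂μ ≤ n12 μ f ^ 3 * n12 μ g ^ 3 := by
  obtain ⟨B, -, hB⟩ := pow_bdd hfb 6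
  obtain ⟨C, -, hC⟩ := pow_bdd hgb 6
  have h := holder_pow μ (u := fun ω => ‖f ω‖ ^ 6) (v := fun ω => ‖g ω‖ ^ 6) (hf.norm.pow_const 6) (hg.norm.pow_const 6)
    (fun ω => by positivity) (fun ω => by positivity) ⟨B, hB⟩ ⟨C, hC⟩ Real.HolderConjugate.two_two
  have e : ∀ F : Ω → ℂ, (∫ ω, (‖F ω‖ ^ 6) ^ (2 : ℝ) ∂μ) ^ (1 / 2 : ℝ) = n12 μ F ^ 3 := by
    intro F
    have e1 : ∫ ω, (‖F ω‖ ^ 6) ^ (2 : ℝ) ∂μ = ∫ ω, ‖F ω‖ ^ 12 ∂μ := by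
      congr 1
      funext ω
      exact rpow_norm (norm_nonneg _) 6 12 2 (by norm_num)
    rw [e1, ← n12_six]
    exact rpow_norm (n12_nonneg _ _) 6 3 (1 / 2) (by norm_num)
  rw [e, e] at h
  exact h

/-- `∫ |f|^2 |g|^10 ≤ (∫ |f|^6 |g|^6)^(1/3) n12(g)^4` -/
theorem holder210 {Ω : Type} [MeasurableSpace Ω] (μ : Measure Ω) [IsFiniteMeasure μ] {f g : Ω → ℂ} (hf : Measurable f)
    (hg : Measurable g) (hfb : ∃ B : ℝ, ∀ ω, ‖f ω‖ ≤ B) (hgb : ∃ B : ℝ, ∀ ω, ‖g ω‖ ≤ B) :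
    ∫ ω, ‖f ω‖ ^ 2 * ‖g ω‖ ^ 10 ∂μ ≤ (∫ ω, ‖f ω‖ ^ 6 * ‖g ω‖ ^ 6 ∂μ) ^ (1 / 3 : ℝ) * n12 μ g ^ 4 := by
  obtain ⟨B, hB0, hB⟩ := pow_bdd hfb 2
  obtain ⟨C, hC0, hC⟩ := pow_bdd hgb 2
  obtain ⟨D, hD0, hD⟩ := pow_bdd hgb 8
  have hpq : (3 : ℝ).HolderConjugate (3 / 2) := by
    rw [Real.holderConjugate_iff]
    norm_num
  have h := holder_pow μ (u := fun ω => ‖f ω‖ ^ 2 * ‖g ω‖ ^ 2) (v := fun ω => ‖g ω‖ ^ 8)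
    ((hf.norm.pow_const 2).mul (hg.norm.pow_const 2)) (hg.norm.pow_const 8)
    (fun ω => by positivity) (fun ω => by positivity)
    ⟨B * C, fun ω => mul_le_mul (hB ω) (hC ω) (by positivity) hB0⟩ ⟨D, hD⟩ hpq
  have e0 : ∫ ω, ‖f ω‖ ^ 2 * ‖g ω‖ ^ 2 * ‖g ω‖ ^ 8 ∂μ = ∫ ω, ‖f ω‖ ^ 2 * ‖g ω‖ ^ 10 ∂μ := by
    congr 1
    funext ω
    ring
  have e1 : ∫ ω, (‖f ω‖ ^ 2 * ‖g ω‖ ^ 2) ^ (3 : ℝ) ∂μ = ∫ ω, ‖f ω‖ ^ 6 * ‖g ω‖ ^ 6 ∂μ := by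
    congr 1
    funext ω
    rw [show (3 : ℝ) = ((3 : ℕ) : ℝ) by norm_num, Real.rpow_natCast]
    ring
  have e2 : ∫ ω, (‖g ω‖ ^ 8) ^ (3 / 2 : ℝ) ∂μ = ∫ ω, ‖g ω‖ ^ 12 ∂μ := by
    congr 1
    funext ω
    exact rpow_norm (norm_nonneg _) 8 12 (3 / 2) (by norm_num)
  have e3 : (n12 μ g ^ 6) ^ (1 / (3 / 2) : ℝ) = n12 μ g ^ 4 :=
    rpow_norm (n12_nonneg _ _) 6 4 _ (by norm_num)
  rw [e0, e1, e2, ← n12_six, e3] at h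
  exact h

/-- `∫ |f|^6 |g|^6 ≤ (∫ |f|^2 |g|^10 ∫ |g|^2 |f|^10)^(1/2)` -/
theorem holder_sym {Ω : Type} [MeasurableSpace Ω] (μ : Measure Ω) [IsFiniteMeasure μ] {f g : Ω → ℂ} (hf : Measurable f)
    (hg : Measurable g) (hfb : ∃ B : ℝ, ∀ ω, ‖f ω‖ ≤ B) (hgb : ∃ B : ℝ, ∀ ω, ‖g ω‖ ≤ B) :
    ∫ ω, ‖f ω‖ ^ 6 * ‖g ω‖ ^ 6 ∂μ ≤
      √((∫ ω, ‖f ω‖ ^ 2 * ‖g ω‖ ^ 10 ∂μ) * ∫ ω, ‖g ω‖ ^ 2 * ‖f ω‖ ^ 10 ∂μ) := by
  obtain ⟨B1, hB10, hB1⟩ := pow_bdd hfb 1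
  obtain ⟨B5, hB50, hB5⟩ := pow_bdd hfb 5
  obtain ⟨C1, hC10, hC1⟩ := pow_bdd hgb 1
  obtain ⟨C5, hC50, hC5⟩ := pow_bdd hgb 5
  have h := holder_pow μ (u := fun ω => ‖f ω‖ ^ 1 * ‖g ω‖ ^ 5) (v := fun ω => ‖g ω‖ ^ 1 * ‖f ω‖ ^ 5)
    ((hf.norm.pow_const 1).mul (hg.norm.pow_const 5)) ((hg.norm.pow_const 1).mul (hf.norm.pow_const 5))
    (fun ω => by positivity) (fun ω => by positivity)
    ⟨B1 * C5, fun ω => mul_le_mul (hB1 ω) (hC5 ω) (by positivity) hB10⟩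
    ⟨C1 * B5, fun ω => mul_le_mul (hC1 ω) (hB5 ω) (by positivity) hC10⟩ Real.HolderConjugate.two_two
  have e0 : ∫ ω, ‖f ω‖ ^ 1 * ‖g ω‖ ^ 5 * (‖g ω‖ ^ 1 * ‖f ω‖ ^ 5) ∂μ = ∫ ω, ‖f ω‖ ^ 6 * ‖g ω‖ ^ 6 ∂μ := by
    congr 1
    funext ω
    ring
  have e1 : ∀ F G : Ω → ℂ, ∫ ω, (‖F ω‖ ^ 1 * ‖G ω‖ ^ 5) ^ (2 : ℝ) ∂μ = ∫ ω, ‖F ω‖ ^ 2 * ‖G ω‖ ^ 10 ∂μ := by
    intro F G
    congr 1
    funext ω
    rw [show (2 : ℝ) = ((2 : ℕ) : ℝ) by norm_num, Real.rpow_natCast]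
    ring
  rw [e0, e1, e1, ← Real.sqrt_eq_rpow, ← Real.sqrt_eq_rpow] at h
  rw [Real.sqrt_mul (integral_nonneg fun ω => by positivity)]
  exact h

end Pool.Agent.Helper78.CD
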