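import Pool.Agent.Helper78.CD.B2
import Pool.Agent.Helper22.AC.A7

/-!
# CD-B3: the descent of the `(6, 6)` inequality

For a fixed arc `J` the system below the arc `I` is a system in the sense of `Helper22.AC` for the measure `|g_J|^6 μ`, so the `ℓ²` decoupling for the
exponent `6` carries `I` down to the level of `J`.
-/

open MeasureTheory Real Set Filter Topology

set_option autoImplicit false

namespace Pool.Agent.Helper78.CD

open Pool.Agent.Helper22.AC (sep desc_lt desc_div Sys n6 n6_nonneg)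

theorem integral_wm {Ω : Type} [MeasurableSpace Ω] (μ : Measure Ω) {f : Ω → ℂ} (hf : Measurable f)
    {E : Type*} [NormedAddCommGroup E] [NormedSpace ℝ E] (h : Ω → E) :
    ∫ ω, h ω ∂(wm μ f) = ∫ ω, (‖f ω‖ ^ 6) • h ω ∂μ := by
  unfold wm
  rw [integral_withDensity_eq_integral_toReal_smul (by fun_prop) (Eventually.of_forall fun ω => ENNReal.ofReal_lt_top)]
  congr 1
  funext ω
  rw [ENNReal.toReal_ofReal (by positivity)]

theorem finite_wm {Ω : Type} [MeasurableSpace Ω] (μ : Measure Ω) [IsFiniteMeasure μ] {f : Ω → ℂ} (hf : Measurable f)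
    (hb : ∃ B : ℝ, ∀ ω, ‖f ω‖ ≤ B) : IsFiniteMeasure (wm μ f) := by
  unfold wm
  refine isFiniteMeasure_withDensity_ofReal ?_
  have := (intg (μ := μ) hf hf hb hb 6 0).2
  simpa using this

theorem n6_wm {Ω : Type} [MeasurableSpace Ω] (μ : Measure Ω) {f : Ω → ℂ} (hf : Measurable f) (h : Ω → ℂ) :
    n6 (wm μ f) h = (∫ ω, ‖h ω‖ ^ 6 * ‖f ω‖ ^ 6 ∂μ) ^ (1 / 3 : ℝ) := by
  unfold n6
  rw [integral_wm μ hf]
  congr 2
  funext ω
  rw [smul_eq_mul, mul_comm]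

private theorem mdiv {M x y i k : ℕ} (hM : 0 < M) : (M ^ (x + y) * i + k) / M ^ y = M ^ x * i + k / M ^ y := by
  rw [pow_add, show M ^ x * M ^ y * i + k = M ^ y * (M ^ x * i) + k by ring, Nat.mul_add_div (pow_pos hM y)]

theorem ddiv {M n b i k : ℕ} (hk : k < M ^ n) : (M ^ n * i + k) / M ^ (n + b) = i / M ^ b := by
  rw [pow_add, ← Nat.div_div_eq_div_mul, desc_div hk]

theorem sub_sys {Ω : Type} [MeasurableSpace Ω] {μ : Measure Ω} {M m : ℕ} {g : ℕ → ℕ → Ω → ℂ}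
    (hg : Sys3 μ M m g) (hM : 1 ≤ M) {a b₁ b₂ i j : ℕ} (hb : b₁ ≤ b₂) (hm : a + 1 + b₂ ≤ m)
    (hi : i < M ^ (a + 1 + b₁)) (hj : j < M ^ (a + 1 + b₂)) (hij : i / M ^ (b₁ + 1) = j / M ^ (b₂ + 1))
    (hs : sep (i / M ^ b₁) (j / M ^ b₂)) :
    Sys (wm μ (g (a + 1 + b₂) j)) M (b₂ - b₁) (fun s r => g (a + 1 + b₁ + s) (M ^ s * i + r)) := by
  refine ⟨fun s r => hg.bas.meas _ _, fun s r => hg.bas.bdd _ _, ?_, ?_⟩
  · intro s hs' r hr ω
    have h1 := hg.bas.add (a + 1 + b₁ + s) (by omega) (M ^ s * i + r) (desc_lt hi hr) ω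
    rw [h1]
    refine Finset.sum_congr rfl fun r' _ => ?_
    have e1 : M * (M ^ s * i + r) + r' = M ^ (s + 1) * i + (M * r + r') := by ring
    rw [e1]
    rfl
  · intro a' b' c' hc hb' hc' k hk i₁ hi₁ i₂ hi₂ h1 h2 h3 h4
    have hM0 : 0 < M := hM
    have ek : a + 1 + b₁ + (a' + 1 + b') = a + 1 + ((b₁ + a') + 1 + b') := by ring
    have ei : a + 1 + b₁ + (a' + 1 + c') = a + 1 + ((b₁ + a') + 1 + c') := by ring
    have hkl := desc_lt (s := a + 1 + b₁) (t := a' + 1 + b') hi hk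
    have hil := desc_lt (s := a + 1 + b₁) (t := a' + 1 + c') hi hi₁
    have hil2 := desc_lt (s := a + 1 + b₁) (t := a' + 1 + c') hi hi₂
    rw [ek] at hkl
    rw [ei] at hil hil2
    have key := hg.orth2 a b₂ (b₁ + a') b' c' hc hm (by omega) (by omega) j hj _ hkl _ hil _ hil2 ?_ ?_ ?_ ?_ ?_ ?_
    · rw [integral_wm μ (hg.bas.meas _ _), ← key]
      congr 1
      funext ω
      simp only [Complex.real_smul]
      rw [ek, ei]
      ring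
    · have e1 : b₁ + a' + 1 + b' + 1 = (a' + 1 + b') + (b₁ + 1) := by ring
      rw [e1, ddiv hk]
      exact hij.symm
    · have e1 : b₁ + a' + 1 + b' = (a' + 1 + b') + b₁ := by ring
      rw [e1, ddiv hk]
      exact hs
    · have e1 : a' + 1 + b' = a' + (b' + 1) := by ring
      have e2 : a' + 1 + c' = a' + (c' + 1) := by ring
      rw [e1, e2, mdiv hM0, mdiv hM0, h1]
    · rw [mdiv hM0, mdiv hM0, h2]
    · rw [mdiv hM0, mdiv hM0]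
      unfold sep at h3 ⊢
      omega
    · unfold sep at h4 ⊢
      omega

theorem descend {ε : ℝ} (hε : 0 < ε) : ∃ M0 : ℕ, 1 ≤ M0 ∧ ∀ M : ℕ, M0 ≤ M → ∃ C : ℝ, 1 ≤ C ∧
    ∀ (Ω : Type) [MeasurableSpace Ω] (μ : Measure Ω) [IsFiniteMeasure μ] (m : ℕ) (g : ℕ → ℕ → Ω → ℂ), Sys3 μ M m g →
      ∀ (a b₁ b₂ : ℕ) (A : ℝ), 0 ≤ A → b₁ ≤ b₂ → a + 1 + b₂ ≤ m → BilB μ M m g a b₂ b₂ A →
        BilB μ M m g a b₁ b₂ (C ^ 3 * (M : ℝ) ^ (3 * ε * (b₂ : ℝ)) * A) := by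
  obtain ⟨M0, hM0, hdec⟩ := Pool.Agent.Helper22.AC.decoupling hε
  refine ⟨M0, hM0, fun M hM => ?_⟩
  obtain ⟨C, hC, hd⟩ := hdec M hM
  refine ⟨C, hC, ?_⟩
  intro Ω _ μ _ m g hg a b₁ b₂ A hA hb hm hB i hi j hj hij hs
  have hM1 : 1 ≤ M := hM0.trans hM
  have hMr : (1 : ℝ) ≤ M := by exact_mod_cast hM1
  have hMr0 : (0 : ℝ) < M := by linarith
  have := finite_wm μ (hg.bas.meas (a + 1 + b₂) j) (hg.bas.bdd (a + 1 + b₂) j)
  have hsys := sub_sys hg hM1 hb hm hi hj hij hs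
  have h1 := hd Ω (wm μ (g (a + 1 + b₂) j)) (b₂ - b₁) _ hsys
  obtain ⟨n, rfl⟩ : ∃ n, b₂ = b₁ + n := ⟨b₂ - b₁, by omega⟩
  have en : b₁ + n - b₁ = n := by omega
  rw [en] at h1
  simp only [add_zero, pow_zero, one_mul] at h1
  set Si := SS μ M m g (a + 1 + b₁) i with hSi
  set Sj := SS μ M m g (a + 1 + (b₁ + n)) j with hSj
  have hSi0 : 0 ≤ Si := SS_nonneg _ _ _ _ _ _
  have hSj0 : 0 ≤ Sj := SS_nonneg _ _ _ _ _ _
  have hst : a + 1 + b₁ + n = a + 1 + (b₁ + n) := by ring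
  -- the terms
  have hterm : ∀ r ∈ Finset.range (M ^ n), n6 (wm μ (g (a + 1 + (b₁ + n)) j)) (g (a + 1 + b₁ + n) (M ^ n * i + r)) ≤
      A ^ (1 / 3 : ℝ) * SS μ M m g (a + 1 + (b₁ + n)) (M ^ n * i + r) * Sj := by
    intro r hr
    rw [Finset.mem_range] at hr
    rw [n6_wm μ (hg.bas.meas _ _), hst]
    have hlt : M ^ n * i + r < M ^ (a + 1 + (b₁ + n)) := by
      rw [← hst]
      exact desc_lt hi hr
    have hdiv : (M ^ n * i + r) / M ^ (b₁ + n) = i / M ^ b₁ := by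
      rw [add_comm b₁ n, ddiv hr]
    have hdiv1 : (M ^ n * i + r) / M ^ (b₁ + n + 1) = i / M ^ (b₁ + 1) := by
      rw [show b₁ + n + 1 = n + (b₁ + 1) by ring, ddiv hr]
    have h2 := hB _ hlt j hj (by rw [hdiv1, hij]) (by rw [hdiv]; exact hs)
    have hS0 : 0 ≤ SS μ M m g (a + 1 + (b₁ + n)) (M ^ n * i + r) := SS_nonneg _ _ _ _ _ _
    refine (Real.rpow_le_rpow (integral_nonneg fun ω => by positivity) h2 (by norm_num)).trans (le_of_eq ?_)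
    have e1 : A * SS μ M m g (a + 1 + (b₁ + n)) (M ^ n * i + r) ^ 3 * Sj ^ 3 =
        A * (SS μ M m g (a + 1 + (b₁ + n)) (M ^ n * i + r) * Sj) ^ 3 := by ring
    rw [e1, Real.mul_rpow hA (by positivity)]
    have e2 : ((SS μ M m g (a + 1 + (b₁ + n)) (M ^ n * i + r) * Sj) ^ 3) ^ (1 / 3 : ℝ) =
        SS μ M m g (a + 1 + (b₁ + n)) (M ^ n * i + r) * Sj := by
      rw [← Real.rpow_natCast, ← Real.rpow_mul (by positivity)]
      norm_num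
    rw [e2]
    ring
  have hsum : ∑ r ∈ Finset.range (M ^ n), n6 (wm μ (g (a + 1 + (b₁ + n)) j)) (g (a + 1 + b₁ + n) (M ^ n * i + r)) ≤
      A ^ (1 / 3 : ℝ) * Si * Sj := by
    refine (Finset.sum_le_sum hterm).trans (le_of_eq ?_)
    rw [← Finset.sum_mul, ← Finset.mul_sum, hSi, SS_split μ M m g (s := a + 1 + b₁) (t := n) i (by omega), hst]
  have h3 : n6 (wm μ (g (a + 1 + (b₁ + n)) j)) (g (a + 1 + b₁) i) ≤
      C * (M : ℝ) ^ (ε * ((b₁ + n : ℕ) : ℝ)) * (A ^ (1 / 3 : ℝ) * Si * Sj) := by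
    refine h1.trans ?_
    have e1 : (M : ℝ) ^ (ε * (n : ℝ)) ≤ (M : ℝ) ^ (ε * ((b₁ + n : ℕ) : ℝ)) := by
      apply Real.rpow_le_rpow_of_exponent_le hMr
      apply mul_le_mul_of_nonneg_left _ hε.le
      push_cast
      have : (0 : ℝ) ≤ b₁ := Nat.cast_nonneg _
      linarith
    have hA3 : 0 ≤ A ^ (1 / 3 : ℝ) := Real.rpow_nonneg hA _
    have hsn : 0 ≤ ∑ r ∈ Finset.range (M ^ n), n6 (wm μ (g (a + 1 + (b₁ + n)) j)) (g (a + 1 + b₁ + n) (M ^ n * i + r)) :=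
      Finset.sum_nonneg fun r _ => n6_nonneg _ _
    gcongr
  have h4 : ∫ ω, ‖g (a + 1 + b₁) i ω‖ ^ 6 * ‖g (a + 1 + (b₁ + n)) j ω‖ ^ 6 ∂μ =
      n6 (wm μ (g (a + 1 + (b₁ + n)) j)) (g (a + 1 + b₁) i) ^ 3 := by
    rw [n6_wm μ (hg.bas.meas _ _), ← Real.rpow_natCast, ← Real.rpow_mul (integral_nonneg fun ω => by positivity)]
    norm_num
  rw [h4]
  refine (pow_le_pow_left₀ (n6_nonneg _ _) h3 3).trans (le_of_eq ?_)
  have e3 : (A ^ (1 / 3 : ℝ)) ^ 3 = A := by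
    rw [← Real.rpow_natCast, ← Real.rpow_mul hA]
    norm_num
  have e4 : ((M : ℝ) ^ (ε * ((b₁ + n : ℕ) : ℝ))) ^ 3 = (M : ℝ) ^ (3 * ε * ((b₁ + n : ℕ) : ℝ)) := by
    rw [← Real.rpow_natCast, ← Real.rpow_mul hMr0.le]
    congr 1
    push_cast
    ring
  rw [← e4]
  calc (C * (M : ℝ) ^ (ε * ((b₁ + n : ℕ) : ℝ)) * (A ^ (1 / 3 : ℝ) * Si * Sj)) ^ 3 =
      C ^ 3 * ((M : ℝ) ^ (ε * ((b₁ + n : ℕ) : ℝ))) ^ 3 * (A ^ (1 / 3 : ℝ)) ^ 3 * Si ^ 3 * Sj ^ 3 := by ring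
    _ = _ := by rw [e3]

end Pool.Agent.Helper78.CD
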