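import Pool.Agent.Helper78.CD.B3

/-!
# CD-B4: the chain of bilinear inequalities

`b i = 3^i (b₀ - 1) + 1`; from the level `c = b (i+1)` (both arcs) to the level `b = b i` (both arcs): `descend` (`I` at level `b`, `J` at level `c`),
`holder210` (exchange), `bil_key` (`c + 1 ≤ 3 b`), `holder_sym`.
-/

open MeasureTheory Real Set Filter Topology

set_option autoImplicit false

namespace Pool.Agent.Helper78.CD

open Pool.Agent.Helper22.AC (sep)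

theorem sep_comm' {i j : ℕ} (h : sep i j) : sep j i := Or.symm h

theorem bilB_mono {Ω : Type} [MeasurableSpace Ω] {μ : Measure Ω} {M m : ℕ}
    {g : ℕ → ℕ → Ω → ℂ} {a b₁ b₂ : ℕ} {A A' : ℝ} (h : BilB μ M m g a b₁ b₂ A) (hA : A ≤ A') :
    BilB μ M m g a b₁ b₂ A' := by
  intro i hi j hj hij hs
  refine (h i hi j hj hij hs).trans ?_
  have h1 := SS_nonneg μ M m g (a + 1 + b₁) i
  have h2 := SS_nonneg μ M m g (a + 1 + b₂) j
  gcongr

/-- from `(6,6)` (the `J` arc of the hypothesis is the `I` arc of the conclusion) to `(2,10)` -/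
theorem bil_swap {Ω : Type} [MeasurableSpace Ω] {μ : Measure Ω} [IsFiniteMeasure μ] {M m : ℕ} {g : ℕ → ℕ → Ω → ℂ}
    (hg : Bas M m g) {a b c : ℕ} {A D : ℝ} (hA : 0 ≤ A) (h : BilB μ M m g a b c A)
    (hn : ∀ j < M ^ (a + 1 + b), n12 μ (g (a + 1 + b) j) ≤ D * SS μ M m g (a + 1 + b) j) :
    BilA μ M m g a c b (A ^ (1 / 3 : ℝ) * D ^ 4) := by
  intro i hi j hj hij hs
  set Si := SS μ M m g (a + 1 + c) i with hSi
  set Sj := SS μ M m g (a + 1 + b) j with hSj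
  have hSi0 : 0 ≤ Si := SS_nonneg _ _ _ _ _ _
  have hSj0 : 0 ≤ Sj := SS_nonneg _ _ _ _ _ _
  have h1 := holder210 μ (hg.meas (a + 1 + c) i) (hg.meas (a + 1 + b) j) (hg.bdd _ _) (hg.bdd _ _)
  have h2 := h j hj i hi hij.symm (sep_comm' hs)
  have e0 : ∫ ω, ‖g (a + 1 + c) i ω‖ ^ 6 * ‖g (a + 1 + b) j ω‖ ^ 6 ∂μ =
      ∫ ω, ‖g (a + 1 + b) j ω‖ ^ 6 * ‖g (a + 1 + c) i ω‖ ^ 6 ∂μ := by
    congr 1
    funext ω
    ring
  have h3 : (∫ ω, ‖g (a + 1 + c) i ω‖ ^ 6 * ‖g (a + 1 + b) j ω‖ ^ 6 ∂μ) ^ (1 / 3 : ℝ) ≤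
      A ^ (1 / 3 : ℝ) * (Sj * Si) := by
    rw [e0]
    refine (Real.rpow_le_rpow (integral_nonneg fun ω => by positivity) h2 (by norm_num)).trans (le_of_eq ?_)
    have e1 : A * Sj ^ 3 * Si ^ 3 = A * (Sj * Si) ^ 3 := by ring
    rw [e1, Real.mul_rpow hA (by positivity)]
    congr 1
    rw [← Real.rpow_natCast, ← Real.rpow_mul (by positivity)]
    norm_num
  have h4 : n12 μ (g (a + 1 + b) j) ^ 4 ≤ (D * Sj) ^ 4 :=
    pow_le_pow_left₀ (n12_nonneg _ _) (hn j hj) 4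
  refine h1.trans ((mul_le_mul h3 h4 (by have := n12_nonneg μ (g (a + 1 + b) j); positivity) (by positivity)).trans_eq ?_)
  ring

/-- from `(2,10)` to `(6,6)` at equal levels -/
theorem bil_sym {Ω : Type} [MeasurableSpace Ω] {μ : Measure Ω} [IsFiniteMeasure μ] {M m : ℕ} {g : ℕ → ℕ → Ω → ℂ}
    (hg : Bas M m g) {a b : ℕ} {A : ℝ} (hA : 0 ≤ A) (h : BilA μ M m g a b b A) : BilB μ M m g a b b A := by
  intro i hi j hj hij hs
  set Si := SS μ M m g (a + 1 + b) i with hSi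
  set Sj := SS μ M m g (a + 1 + b) j with hSj
  have hSi0 : 0 ≤ Si := SS_nonneg _ _ _ _ _ _
  have hSj0 : 0 ≤ Sj := SS_nonneg _ _ _ _ _ _
  have h1 := holder_sym μ (hg.meas (a + 1 + b) i) (hg.meas (a + 1 + b) j) (hg.bdd _ _) (hg.bdd _ _)
  have h2 := h i hi j hj hij hs
  have h3 := h j hj i hi hij.symm (sep_comm' hs)
  refine h1.trans ?_
  have h4 : (∫ ω, ‖g (a + 1 + b) i ω‖ ^ 2 * ‖g (a + 1 + b) j ω‖ ^ 10 ∂μ) *
      ∫ ω, ‖g (a + 1 + b) j ω‖ ^ 2 * ‖g (a + 1 + b) i ω‖ ^ 10 ∂μ ≤ (A * Si ^ 3 * Sj ^ 3) ^ 2 := by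
    calc _ ≤ (A * Si * Sj ^ 5) * (A * Sj * Si ^ 5) :=
          mul_le_mul h2 h3 (integral_nonneg fun ω => by positivity) (by positivity)
      _ = _ := by ring
  exact Real.sqrt_le_iff.2 ⟨by positivity, h4⟩

private theorem num4 {C C₂ x e e' d t : ℝ} (hC : 1 ≤ C) (hC₂ : 1 ≤ C₂) (hx : 1 ≤ x) (he : (t + e') / 3 + 4 * d ≤ e) :
    3 * ((C₂ ^ 3 * x ^ t * (9 * C₂ ^ 2 * C ^ 6 * x ^ e')) ^ (1 / 3 : ℝ) * (C * x ^ d) ^ 4) ≤ 9 * C₂ ^ 2 * C ^ 6 * x ^ e := by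
  have hx0 : 0 < x := zero_lt_one.trans_le hx
  have hC0 : 0 < C := zero_lt_one.trans_le hC
  have hC₂0 : 0 < C₂ := zero_lt_one.trans_le hC₂
  have h1 : C₂ ^ 3 * x ^ t * (9 * C₂ ^ 2 * C ^ 6 * x ^ e') ≤ (3 * C₂ ^ 2 * C ^ 2 * x ^ ((t + e') / 3)) ^ 3 := by
    have e1 : (x ^ ((t + e') / 3)) ^ 3 = x ^ t * x ^ e' := by
      rw [← Real.rpow_natCast, ← Real.rpow_mul hx0.le, ← Real.rpow_add hx0]
      congr 1
      push_cast
      ring
    have e2 : (3 * C₂ ^ 2 * C ^ 2 * x ^ ((t + e') / 3)) ^ 3 = 27 * C₂ ^ 6 * C ^ 6 * (x ^ t * x ^ e') := by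
      rw [mul_pow, e1]
      ring
    rw [e2]
    have e3 : C₂ ^ 5 ≤ C₂ ^ 6 := pow_le_pow_right₀ hC₂ (by norm_num)
    have e4 : 0 < C ^ 6 * (x ^ t * x ^ e') := by positivity
    calc C₂ ^ 3 * x ^ t * (9 * C₂ ^ 2 * C ^ 6 * x ^ e') = 9 * C₂ ^ 5 * (C ^ 6 * (x ^ t * x ^ e')) := by ring
      _ ≤ 27 * C₂ ^ 6 * (C ^ 6 * (x ^ t * x ^ e')) := by
        apply mul_le_mul_of_nonneg_right _ e4.le
        have : 0 < C₂ ^ 5 := by positivity
        linarith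
      _ = _ := by ring
  have h2 : (C₂ ^ 3 * x ^ t * (9 * C₂ ^ 2 * C ^ 6 * x ^ e')) ^ (1 / 3 : ℝ) ≤ 3 * C₂ ^ 2 * C ^ 2 * x ^ ((t + e') / 3) := by
    refine (Real.rpow_le_rpow (by positivity) h1 (by norm_num)).trans (le_of_eq ?_)
    rw [← Real.rpow_natCast, ← Real.rpow_mul (by positivity)]
    norm_num
  have h3 : (C * x ^ d) ^ 4 = C ^ 4 * x ^ (4 * d) := by
    rw [mul_pow, ← Real.rpow_natCast (x ^ d), ← Real.rpow_mul hx0.le, mul_comm d]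
    norm_num
  rw [h3]
  calc 3 * ((C₂ ^ 3 * x ^ t * (9 * C₂ ^ 2 * C ^ 6 * x ^ e')) ^ (1 / 3 : ℝ) * (C ^ 4 * x ^ (4 * d)))
      ≤ 3 * ((3 * C₂ ^ 2 * C ^ 2 * x ^ ((t + e') / 3)) * (C ^ 4 * x ^ (4 * d))) := by gcongr
    _ = 9 * C₂ ^ 2 * C ^ 6 * x ^ ((t + e') / 3 + 4 * d) := by
      rw [Real.rpow_add hx0]
      ring
    _ ≤ _ := by
      have := Real.rpow_le_rpow_of_exponent_le hx he
      gcongr

theorem bil_chain {Ω : Type} [MeasurableSpace Ω] {μ : Measure Ω} [IsFiniteMeasure μ] {M m : ℕ} {g : ℕ → ℕ → Ω → ℂ}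
    (hg : Sys3 μ M m g) (hM : 1 ≤ M) {ε lam C C₂ : ℝ} (hε : 0 < ε) (hlam : 3 * ε ≤ lam) (hC : 1 ≤ C) (hC₂ : 1 ≤ C₂)
    (hdec : Dec μ M m g lam C)
    (hdes : ∀ (a b₁ b₂ : ℕ) (A : ℝ), 0 ≤ A → b₁ ≤ b₂ → a + 1 + b₂ ≤ m → BilB μ M m g a b₂ b₂ A →
        BilB μ M m g a b₁ b₂ (C₂ ^ 3 * (M : ℝ) ^ (3 * ε * (b₂ : ℝ)) * A)) {a N b₀ : ℕ}
    (hb₀ : 1 ≤ b₀) (hN : a + 1 + (3 ^ N * (b₀ - 1) + 1) ≤ m) :
    BilB μ M m g a b₀ b₀
      (9 * C₂ ^ 2 * C ^ 6 * (M : ℝ) ^ (6 * lam * ((m : ℝ) - a - 1) - 3 * lam * N * ((b₀ : ℝ) - 1))) := by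
  have hx : (1 : ℝ) ≤ M := by exact_mod_cast hM
  have hx0 : (0 : ℝ) < M := zero_lt_one.trans_le hx
  have hC0 : 0 < C := zero_lt_one.trans_le hC
  have hC₂0 : 0 < C₂ := zero_lt_one.trans_le hC₂
  have hlam0 : 0 ≤ lam := by linarith
  have hb0r : ((b₀ - 1 : ℕ) : ℝ) = (b₀ : ℝ) - 1 := by
    rw [Nat.cast_sub hb₀, Nat.cast_one]
  have hb0n : (0 : ℝ) ≤ (b₀ : ℝ) - 1 := by
    rw [← hb0r]
    exact Nat.cast_nonneg _
  have hmon : ∀ i k, i ≤ k → 3 ^ i * (b₀ - 1) + 1 ≤ 3 ^ k * (b₀ - 1) + 1 := fun i k h =>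
    Nat.add_le_add_right (Nat.mul_le_mul_right _ (Nat.pow_le_pow_right (by norm_num) h)) _
  have key : ∀ l i, i + l = N →
      BilB μ M m g a (3 ^ i * (b₀ - 1) + 1) (3 ^ i * (b₀ - 1) + 1)
        (9 * C₂ ^ 2 * C ^ 6 * (M : ℝ) ^ (6 * lam * ((m : ℝ) - a - 1) -
          3 * lam * l * (3 ^ i * ((b₀ : ℝ) - 1)))) := by
    intro l
    induction l with
    | zero =>
      intro i hi
      have hi' : i = N := by omega
      subst hi'
      set b := 3 ^ i * (b₀ - 1) + 1 with hb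
      intro i' hi' j hj hij hs
      have h1 := holder66 μ (hg.bas.meas (a + 1 + b) i') (hg.bas.meas (a + 1 + b) j) (hg.bas.bdd _ _)
        (hg.bas.bdd _ _)
      have hdec' : ∀ k < M ^ (a + 1 + b), n12 μ (g (a + 1 + b) k) ≤
          C * (M : ℝ) ^ (lam * ((m : ℝ) - a - 1)) * SS μ M m g (a + 1 + b) k := by
        intro k hk
        refine (hdec (a + 1 + b) hN k hk).trans ?_
        have e1 : lam * ((m : ℝ) - ((a + 1 + b : ℕ) : ℝ)) ≤ lam * ((m : ℝ) - a - 1) := by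
          refine mul_le_mul_of_nonneg_left ?_ hlam0
          push_cast
          have : (0 : ℝ) ≤ b := Nat.cast_nonneg b
          linarith
        have e2 := Real.rpow_le_rpow_of_exponent_le hx e1
        have e3 := SS_nonneg μ M m g (a + 1 + b) k
        gcongr
      have h2 := hdec' i' hi'
      have h3 := hdec' j hj
      have hSi0 := SS_nonneg μ M m g (a + 1 + b) i'
      have hSj0 := SS_nonneg μ M m g (a + 1 + b) j
      have h2' := pow_le_pow_left₀ (n12_nonneg _ _) h2 3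
      have h3' := pow_le_pow_left₀ (n12_nonneg _ _) h3 3
      refine h1.trans ((mul_le_mul h2' h3' (pow_nonneg (n12_nonneg _ _) 3) (by positivity)).trans ?_)
      have e5 : ((M : ℝ) ^ (lam * ((m : ℝ) - a - 1))) ^ 6 =
          (M : ℝ) ^ (6 * lam * ((m : ℝ) - a - 1) -
            3 * lam * (0 : ℕ) * (3 ^ i * ((b₀ : ℝ) - 1))) := by
        rw [← Real.rpow_natCast, ← Real.rpow_mul hx0.le]
        congr 1
        push_cast
        ring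
      rw [← e5]
      set y := (M : ℝ) ^ (lam * ((m : ℝ) - a - 1)) with hy
      have hy0 : 0 < y := Real.rpow_pos_of_pos hx0 _
      have e6 : (C * y * SS μ M m g (a + 1 + b) i') ^ 3 * (C * y * SS μ M m g (a + 1 + b) j) ^ 3 =
          (C ^ 6 * y ^ 6) * (SS μ M m g (a + 1 + b) i' ^ 3 * SS μ M m g (a + 1 + b) j ^ 3) := by ring
      rw [e6]
      have e7 : C ^ 6 * y ^ 6 ≤ 9 * C₂ ^ 2 * C ^ 6 * y ^ 6 := by
        have h8 : 0 < C ^ 6 * y ^ 6 := by positivity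
        have h9 : 1 ≤ C₂ ^ 2 := one_le_pow₀ hC₂
        nlinarith
      calc _ ≤ (9 * C₂ ^ 2 * C ^ 6 * y ^ 6) *
            (SS μ M m g (a + 1 + b) i' ^ 3 * SS μ M m g (a + 1 + b) j ^ 3) := by gcongr
        _ = _ := by ring
    | succ l ih =>
      intro i hi
      have hi1 : (i + 1) + l = N := by omega
      have hle : 3 ^ i * (b₀ - 1) + 1 ≤ 3 ^ (i + 1) * (b₀ - 1) + 1 := hmon i (i + 1) (by omega)
      have hleN : 3 ^ (i + 1) * (b₀ - 1) + 1 ≤ 3 ^ N * (b₀ - 1) + 1 := hmon (i + 1) N (by omega)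
      have hbb : 3 ^ (i + 1) * (b₀ - 1) + 1 + 1 ≤ 3 * (3 ^ i * (b₀ - 1) + 1) := by
        have : 3 ^ (i + 1) * (b₀ - 1) = 3 * (3 ^ i * (b₀ - 1)) := by rw [pow_succ]; ring
        omega
      have ih1 := ih (i + 1) hi1
      set b := 3 ^ i * (b₀ - 1) + 1 with hb
      set c := 3 ^ (i + 1) * (b₀ - 1) + 1 with hc
      have hbm : a + 1 + b ≤ m := by omega
      have hcm : a + 1 + c ≤ m := by omega
      have h1 := hdes a b c _ (by positivity) hle hcm ih1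
      have h2 := bil_swap hg.bas (a := a) (b := b) (c := c)
        (D := C * (M : ℝ) ^ (lam * ((m : ℝ) - ((a + 1 + b : ℕ) : ℝ)))) (by positivity)
        h1 (fun j hj => hdec (a + 1 + b) hbm j hj)
      have h3 := bil_key hg hM (b₁ := b) hbb hle hbm hcm h2
      have h4 := bil_sym hg.bas (by positivity) h3
      refine bilB_mono h4 (num4 (t := 3 * ε * (c : ℝ)) hC hC₂ hx ?_)
      have hbr : (b : ℝ) = 3 ^ i * ((b₀ : ℝ) - 1) + 1 := by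
        rw [hb]
        push_cast [hb0r]
        ring
      have hcr : (c : ℝ) = 3 * (3 ^ i * ((b₀ : ℝ) - 1)) + 1 := by
        rw [hc]
        push_cast [hb0r]
        ring
      have hl0 : (0 : ℝ) ≤ l := Nat.cast_nonneg l
      have hX0 : 0 ≤ 3 ^ i * ((b₀ : ℝ) - 1) := by positivity
      push_cast
      rw [hbr, hcr]
      have e1 : (3 : ℝ) ^ (i + 1) * ((b₀ : ℝ) - 1) = 3 * (3 ^ i * ((b₀ : ℝ) - 1)) := by rw [pow_succ]; ring
      rw [e1]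
      set X := 3 ^ i * ((b₀ : ℝ) - 1) with hX
      have h5 : 3 * ε * X ≤ lam * X := mul_le_mul_of_nonneg_right hlam hX0
      nlinarith
  have hfin := key N 0 (by omega)
  have e0 : 3 ^ 0 * (b₀ - 1) + 1 = b₀ := by omega
  rw [e0] at hfin
  have e1 : 3 * lam * N * (3 ^ 0 * ((b₀ : ℝ) - 1)) = 3 * lam * N * ((b₀ : ℝ) - 1) := by ring
  rw [e1] at hfin
  exact hfin

end Pool.Agent.Helper78.CD
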