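import Pool.Agent.Helper78.CD.B4

/-!
# CD-B5: the bilinear reduction at one level
-/

open MeasureTheory Real Set Filter Topology

set_option autoImplicit false

namespace Pool.Agent.Helper78.CD

open Pool.Agent.Helper22.AE
open Pool.Agent.Helper22.AC (sep desc_lt desc_div a5_sq)

theorem b5_pm {ι : Type*} (s : Finset ι) (p : ι → ℝ) (hp : ∀ i ∈ s, 0 ≤ p i) :
    (∑ i ∈ s, p i ^ 2) ^ 3 ≤ (s.card : ℝ) ^ 2 * ∑ i ∈ s, p i ^ 6 := by
  rcases Nat.eq_zero_or_pos s.card with h0 | h0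
  · rw [Finset.card_eq_zero] at h0
    subst h0
    simp
  have h2 := pow_sum_div_card_le_sum_pow (s := s) (f := fun i => p i ^ 2) (fun i _ => sq_nonneg _) 2
  rw [div_le_iff₀ (by positivity)] at h2
  have h3 : ∀ i, (p i ^ 2) ^ 3 = p i ^ 6 := fun i => by ring
  simp only [h3] at h2
  calc (∑ i ∈ s, p i ^ 2) ^ 3 ≤ (∑ i ∈ s, p i ^ 6) * (s.card : ℝ) ^ 2 := h2
    _ = _ := mul_comm _ _

theorem b5_twelve (u w : ℝ) (hu : 0 ≤ u) (hw : 0 ≤ w) : (u + w) ^ 12 ≤ 2 ^ 11 * (u ^ 12 + w ^ 12) := by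
  have := add_pow_le hu hw 12
  norm_num at this ⊢
  exact this

open Classical in
theorem bn12 {M : ℕ} (hM : 1 ≤ M) (z : ℕ → ℂ) :
    ‖∑ r ∈ Finset.range M, z r‖ ^ 12 ≤ 2 ^ 47 * ∑ r ∈ Finset.range M, ‖z r‖ ^ 12 +
      2 ^ 23 * (M : ℝ) ^ 16 * ∑ r ∈ Finset.range M, ∑ r' ∈ Finset.range M,
        (if sep r r' then ‖z r‖ ^ 6 * ‖z r'‖ ^ 6 else 0) := by
  obtain ⟨i₀, hi₀, hmax⟩ := Finset.exists_max_image (Finset.range M) (fun i => ‖z i‖)
    ⟨0, Finset.mem_range.2 hM⟩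
  have hb := bn_one (J := 2) hM (by norm_num) z (D := ‖z i₀‖)
    (fun i hi => hmax i (Finset.mem_range.2 hi))
  set P : (Fin 2 → Fin M) → ℝ := fun I => ‖z (I 0)‖ * ‖z (I 1)‖ with hP
  have hY : (∑ I ∈ gapT 2 M, ∏ t, ‖z (I t)‖ ^ 2) = ∑ I ∈ gapT 2 M, P I ^ 2 := by
    refine Finset.sum_congr rfl fun I _ => ?_
    rw [Fin.prod_univ_two, hP]
    ring
  rw [hY] at hb
  set Y := ∑ I ∈ gapT 2 M, P I ^ 2 with hYd
  have hY0 : 0 ≤ Y := Finset.sum_nonneg fun I _ => sq_nonneg _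
  set w := Y ^ (1 / (2 * ((2 : ℕ) : ℝ))) with hw
  have hw0 : 0 ≤ w := Real.rpow_nonneg hY0 _
  have hw4 : w ^ 4 = Y := by
    rw [hw, ← Real.rpow_natCast, ← Real.rpow_mul hY0]
    norm_num
  have hP0 : ∀ I, 0 ≤ P I := fun I => by rw [hP]; positivity
  have hcard : ((gapT 2 M).card : ℝ) ≤ (M : ℝ) ^ 2 := by
    have h1 : (gapT 2 M).card ≤ Fintype.card (Fin 2 → Fin M) := Finset.card_le_univ _
    rw [Fintype.card_fun, Fintype.card_fin, Fintype.card_fin] at h1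
    exact_mod_cast h1
  have hpm := b5_pm (gapT 2 M) P (fun I _ => hP0 I)
  set Z := ∑ I ∈ gapT 2 M, P I ^ 6 with hZ
  have hZ0 : 0 ≤ Z := Finset.sum_nonneg fun I _ => pow_nonneg (hP0 I) 6
  have hM0 : (0 : ℝ) ≤ M := Nat.cast_nonneg M
  have hw12 : w ^ 12 ≤ (M : ℝ) ^ 4 * Z := by
    calc w ^ 12 = (w ^ 4) ^ 3 := by ring
      _ = Y ^ 3 := by rw [hw4]
      _ ≤ ((gapT 2 M).card : ℝ) ^ 2 * Z := hpm
      _ ≤ ((M : ℝ) ^ 2) ^ 2 * Z := by gcongr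
      _ = (M : ℝ) ^ 4 * Z := by ring
  have hZle : Z ≤ ∑ r ∈ Finset.range M, ∑ r' ∈ Finset.range M,
        (if sep r r' then ‖z r‖ ^ 6 * ‖z r'‖ ^ 6 else 0) := by
    have h1 : Z ≤ ∑ I : Fin 2 → Fin M,
        (if sep (I 0) (I 1) then ‖z (I 0)‖ ^ 6 * ‖z (I 1)‖ ^ 6 else 0) := by
      have h2 : Z = ∑ I ∈ gapT 2 M,
          (if sep (I 0) (I 1) then ‖z (I 0)‖ ^ 6 * ‖z (I 1)‖ ^ 6 else 0) := by
        refine Finset.sum_congr rfl fun I hI => ?_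
        have h3 : sep (I 0) (I 1) := (Finset.mem_filter.1 hI).2 0 1 (by decide)
        rw [if_pos h3, hP]
        ring
      rw [h2]
      refine Finset.sum_le_sum_of_subset_of_nonneg (Finset.subset_univ _) (fun I _ _ => ?_)
      split_ifs
      · positivity
      · exact le_rfl
    refine h1.trans (le_of_eq ?_)
    rw [← Equiv.sum_comp (finTwoArrowEquiv (Fin M)).symm, Fintype.sum_prod_type]
    simp only [finTwoArrowEquiv_symm_apply, Matrix.cons_val_zero, Matrix.cons_val_one]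
    rw [← Fin.sum_univ_eq_sum_range (fun r => ∑ r' ∈ Finset.range M,
        (if sep r r' then ‖z r‖ ^ 6 * ‖z r'‖ ^ 6 else 0)) M]
    refine Finset.sum_congr rfl fun r _ => ?_
    rw [← Fin.sum_univ_eq_sum_range (fun r' =>
        (if sep r r' then ‖z r‖ ^ 6 * ‖z r'‖ ^ 6 else 0)) M]
  have hD12 : ‖z i₀‖ ^ 12 ≤ ∑ r ∈ Finset.range M, ‖z r‖ ^ 12 :=
    Finset.single_le_sum (f := fun r => ‖z r‖ ^ 12) (fun r _ => by positivity) hi₀
  have hb' : ‖∑ r ∈ Finset.range M, z r‖ ≤ 8 * ‖z i₀‖ + 2 * M * w := by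
    refine hb.trans (le_of_eq ?_)
    push_cast
    ring
  calc ‖∑ r ∈ Finset.range M, z r‖ ^ 12 ≤ (8 * ‖z i₀‖ + 2 * M * w) ^ 12 :=
        pow_le_pow_left₀ (norm_nonneg _) hb' 12
    _ ≤ 2 ^ 11 * ((8 * ‖z i₀‖) ^ 12 + (2 * M * w) ^ 12) := b5_twelve _ _ (by positivity) (by positivity)
    _ = 2 ^ 47 * ‖z i₀‖ ^ 12 + 2 ^ 23 * (M : ℝ) ^ 12 * w ^ 12 := by ring
    _ ≤ 2 ^ 47 * ∑ r ∈ Finset.range M, ‖z r‖ ^ 12 + 2 ^ 23 * (M : ℝ) ^ 12 * ((M : ℝ) ^ 4 * Z) := by gcongr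
    _ = 2 ^ 47 * ∑ r ∈ Finset.range M, ‖z r‖ ^ 12 + 2 ^ 23 * (M : ℝ) ^ 16 * Z := by ring
    _ ≤ _ := by gcongr

theorem b5_six {ι : Type*} (s : Finset ι) (x : ι → ℝ) (hx : ∀ i ∈ s, 0 ≤ x i) :
    (∑ i ∈ s, x i) ^ 6 ≤ (s.card : ℝ) ^ 5 * ∑ i ∈ s, x i ^ 6 := by
  rcases Nat.eq_zero_or_pos s.card with h0 | h0
  · rw [Finset.card_eq_zero] at h0
    subst h0
    simp
  have h2 := pow_sum_div_card_le_sum_pow (s := s) (f := x) hx 5
  rw [div_le_iff₀ (by positivity)] at h2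
  calc (∑ i ∈ s, x i) ^ 6 ≤ (∑ i ∈ s, x i ^ 6) * (s.card : ℝ) ^ 5 := h2
    _ = _ := mul_comm _ _

theorem b5_cube {ι : Type*} (s : Finset ι) (x : ι → ℝ) (hx : ∀ i ∈ s, 0 ≤ x i) :
    ∑ i ∈ s, x i ^ 3 ≤ (∑ i ∈ s, x i) ^ 3 := by
  have h1 : ∀ i ∈ s, x i ^ 3 ≤ x i * (∑ i ∈ s, x i) ^ 2 := by
    intro i hi
    have h2 : x i ≤ ∑ i ∈ s, x i := Finset.single_le_sum hx hi
    have h3 : x i ^ 2 ≤ (∑ i ∈ s, x i) ^ 2 := pow_le_pow_left₀ (hx i hi) h2 2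
    calc x i ^ 3 = x i * x i ^ 2 := by ring
      _ ≤ x i * (∑ i ∈ s, x i) ^ 2 := mul_le_mul_of_nonneg_left h3 (hx i hi)
  calc ∑ i ∈ s, x i ^ 3 ≤ ∑ i ∈ s, x i * (∑ i ∈ s, x i) ^ 2 := Finset.sum_le_sum h1
    _ = (∑ i ∈ s, x i) ^ 3 := by rw [← Finset.sum_mul]; ring

theorem b5_Q {Ω : Type} [MeasurableSpace Ω] {μ : Measure Ω} [IsFiniteMeasure μ] {M m : ℕ}
    {g : ℕ → ℕ → Ω → ℂ} (hg : Bas M m g) {a b₀ j : ℕ} (hj : j < M ^ a)
    (hb : a + 1 + b₀ ≤ m) {U : ℝ} (hU : 0 ≤ U) (h : BilB μ M m g a b₀ b₀ U) {r r' : ℕ}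
    (hr : r < M) (hr' : r' < M) (hs : sep r r') :
    ∫ ω, ‖g (a + 1) (M * j + r) ω‖ ^ 6 * ‖g (a + 1) (M * j + r') ω‖ ^ 6 ∂μ ≤
      (M : ℝ) ^ (10 * b₀) * U * SS μ M m g a j ^ 6 := by
  classical
  set N := M ^ b₀ with hN
  have hlt : ∀ x < M, M * j + x < M ^ (a + 1) := by
    intro x hx
    have := desc_lt (M := M) (s := a) (t := 1) (j := j) (r := x) hj (by rwa [pow_one])
    rwa [pow_one] at this
  have hdesc : ∀ x < M, ∀ ω, g (a + 1) (M * j + x) ω =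
      ∑ k ∈ Finset.range N, g (a + 1 + b₀) (N * (M * j + x) + k) ω := fun x hx ω =>
    desc_sum hg hb (hlt x hx) ω
  have hsplit : ∀ x, SS μ M m g (a + 1) (M * j + x) =
      ∑ k ∈ Finset.range N, SS μ M m g (a + 1 + b₀) (N * (M * j + x) + k) := fun x =>
    SS_split μ M m g _ hb
  have hSle : ∀ x < M, SS μ M m g (a + 1) (M * j + x) ≤ SS μ M m g a j := by
    intro x hx
    have h1 := SS_split μ M m g (s := a) (t := 1) j (by omega)
    rw [pow_one] at h1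
    rw [h1]
    exact Finset.single_le_sum (f := fun r => SS μ M m g (a + 1) (M * j + r))
      (fun r _ => SS_nonneg μ M m g _ _) (Finset.mem_range.2 hx)
  have hdiv : ∀ x < M, ∀ k < N, (N * (M * j + x) + k) / M ^ (b₀ + 1) = j := by
    intro x hx k hk
    have h1 : (N * (M * j + x) + k) / M ^ b₀ = M * j + x := desc_div hk
    rw [pow_succ, ← Nat.div_div_eq_div_mul, h1]
    have h2 := desc_div (M := M) (t := 1) (j := j) (r := x) (by rwa [pow_one])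
    rwa [pow_one] at h2
  have hNcard : ((Finset.range N).card : ℝ) = (M : ℝ) ^ b₀ := by
    rw [Finset.card_range, hN]
    push_cast
    rfl
  have hsix : ∀ x < M, ∀ ω, ‖g (a + 1) (M * j + x) ω‖ ^ 6 ≤ ((M : ℝ) ^ b₀) ^ 5 *
        ∑ k ∈ Finset.range N, ‖g (a + 1 + b₀) (N * (M * j + x) + k) ω‖ ^ 6 := by
    intro x hx ω
    rw [hdesc x hx]
    refine (pow_le_pow_left₀ (norm_nonneg _) (norm_sum_le _ _) 6).trans ?_
    rw [← hNcard]
    exact b5_six _ _ fun i _ => norm_nonneg _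
  have hpt : ∀ ω, ‖g (a + 1) (M * j + r) ω‖ ^ 6 * ‖g (a + 1) (M * j + r') ω‖ ^ 6 ≤
      (M : ℝ) ^ (10 * b₀) * ∑ k ∈ Finset.range N, ∑ l ∈ Finset.range N,
        ‖g (a + 1 + b₀) (N * (M * j + r) + k) ω‖ ^ 6 *
          ‖g (a + 1 + b₀) (N * (M * j + r') + l) ω‖ ^ 6 := by
    intro ω
    calc ‖g (a + 1) (M * j + r) ω‖ ^ 6 * ‖g (a + 1) (M * j + r') ω‖ ^ 6
        ≤ (((M : ℝ) ^ b₀) ^ 5 * ∑ k ∈ Finset.range N, ‖g (a + 1 + b₀) (N * (M * j + r) + k) ω‖ ^ 6) *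
          (((M : ℝ) ^ b₀) ^ 5 *
            ∑ k ∈ Finset.range N, ‖g (a + 1 + b₀) (N * (M * j + r') + k) ω‖ ^ 6) :=
          mul_le_mul (hsix r hr ω) (hsix r' hr' ω) (by positivity) (by positivity)
      _ = (M : ℝ) ^ (10 * b₀) * ((∑ k ∈ Finset.range N,
            ‖g (a + 1 + b₀) (N * (M * j + r) + k) ω‖ ^ 6) *
            ∑ l ∈ Finset.range N, ‖g (a + 1 + b₀) (N * (M * j + r') + l) ω‖ ^ 6) := by
          ring
      _ = _ := by rw [Finset.sum_mul_sum]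
  have hint : ∀ s k s' k', Integrable (fun ω => ‖g s k ω‖ ^ 6 * ‖g s' k' ω‖ ^ 6) μ := fun s k s' k' =>
    intg (hg.meas s k) (hg.meas s' k') (hg.bdd s k) (hg.bdd s' k') 6 6
  have h1 : ∫ ω, ‖g (a + 1) (M * j + r) ω‖ ^ 6 * ‖g (a + 1) (M * j + r') ω‖ ^ 6 ∂μ ≤
      (M : ℝ) ^ (10 * b₀) * ∑ k ∈ Finset.range N, ∑ l ∈ Finset.range N,
        ∫ ω, ‖g (a + 1 + b₀) (N * (M * j + r) + k) ω‖ ^ 6 *
          ‖g (a + 1 + b₀) (N * (M * j + r') + l) ω‖ ^ 6 ∂μ := by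
    refine (integral_mono (hint _ _ _ _) ?_ hpt).trans (le_of_eq ?_)
    · refine Integrable.const_mul ?_ _
      refine integrable_finsetSum _ fun k _ => integrable_finsetSum _ fun l _ => hint _ _ _ _
    · rw [integral_const_mul, integral_finsetSum _ (fun k _ =>
        integrable_finsetSum _ fun l _ => hint _ _ _ _)]
      congr 1
      refine Finset.sum_congr rfl fun k _ => ?_
      rw [integral_finsetSum _ (fun l _ => hint _ _ _ _)]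
  have h2 : ∀ k ∈ Finset.range N, ∀ l ∈ Finset.range N,
      ∫ ω, ‖g (a + 1 + b₀) (N * (M * j + r) + k) ω‖ ^ 6 *
          ‖g (a + 1 + b₀) (N * (M * j + r') + l) ω‖ ^ 6 ∂μ ≤
        U * SS μ M m g (a + 1 + b₀) (N * (M * j + r) + k) ^ 3 *
          SS μ M m g (a + 1 + b₀) (N * (M * j + r') + l) ^ 3 := by
    intro k hk l hl
    rw [Finset.mem_range] at hk hl
    refine h _ (desc_lt (hlt r hr) hk) _ (desc_lt (hlt r' hr') hl) ?_ ?_
    · rw [hdiv r hr k hk, hdiv r' hr' l hl]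
    · rw [desc_div hk, desc_div hl]
      rcases hs with hs | hs
      · left; omega
      · right; omega
  have hS0 : ∀ s k, 0 ≤ SS μ M m g s k := fun s k => SS_nonneg μ M m g s k
  have h3 : ∑ k ∈ Finset.range N, ∑ l ∈ Finset.range N,
        ∫ ω, ‖g (a + 1 + b₀) (N * (M * j + r) + k) ω‖ ^ 6 *
          ‖g (a + 1 + b₀) (N * (M * j + r') + l) ω‖ ^ 6 ∂μ ≤
      U * SS μ M m g (a + 1) (M * j + r) ^ 3 * SS μ M m g (a + 1) (M * j + r') ^ 3 := by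
    calc _ ≤ ∑ k ∈ Finset.range N, ∑ l ∈ Finset.range N,
          U * SS μ M m g (a + 1 + b₀) (N * (M * j + r) + k) ^ 3 *
          SS μ M m g (a + 1 + b₀) (N * (M * j + r') + l) ^ 3 :=
          Finset.sum_le_sum fun k hk => Finset.sum_le_sum fun l hl => h2 k hk l hl
      _ = (U * ∑ k ∈ Finset.range N, SS μ M m g (a + 1 + b₀) (N * (M * j + r) + k) ^ 3) *
          ∑ l ∈ Finset.range N, SS μ M m g (a + 1 + b₀) (N * (M * j + r') + l) ^ 3 := by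
          rw [← Finset.sum_mul_sum, ← Finset.mul_sum]
      _ ≤ (U * (∑ k ∈ Finset.range N, SS μ M m g (a + 1 + b₀) (N * (M * j + r) + k)) ^ 3) *
          (∑ l ∈ Finset.range N, SS μ M m g (a + 1 + b₀) (N * (M * j + r') + l)) ^ 3 := by
          have c1 := b5_cube (Finset.range N) (fun k => SS μ M m g (a + 1 + b₀) (N * (M * j + r) + k)) (fun l _ => hS0 _ _)
          have c2 := b5_cube (Finset.range N) (fun k => SS μ M m g (a + 1 + b₀) (N * (M * j + r') + k)) (fun l _ => hS0 _ _)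
          have c3 : 0 ≤ ∑ l ∈ Finset.range N, SS μ M m g (a + 1 + b₀) (N * (M * j + r') + l) ^ 3 :=
            Finset.sum_nonneg fun l _ => pow_nonneg (hS0 _ _) 3
          have c4 : 0 ≤ ∑ k ∈ Finset.range N, SS μ M m g (a + 1 + b₀) (N * (M * j + r) + k) :=
            Finset.sum_nonneg fun l _ => hS0 _ _
          exact mul_le_mul (mul_le_mul_of_nonneg_left c1 hU) c2 c3 (by positivity)
      _ = _ := by rw [← hsplit, ← hsplit]
  have h4 : U * SS μ M m g (a + 1) (M * j + r) ^ 3 * SS μ M m g (a + 1) (M * j + r') ^ 3 ≤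
      U * SS μ M m g a j ^ 6 := by
    have e1 := hSle r hr
    have e2 := hSle r' hr'
    have e3 := hS0 (a + 1) (M * j + r)
    have e4 := hS0 (a + 1) (M * j + r')
    have e5 := hS0 a j
    calc U * SS μ M m g (a + 1) (M * j + r) ^ 3 * SS μ M m g (a + 1) (M * j + r') ^ 3
        ≤ U * SS μ M m g a j ^ 3 * SS μ M m g a j ^ 3 := by gcongr
      _ = U * SS μ M m g a j ^ 6 := by ring
  calc _ ≤ _ := h1
    _ ≤ (M : ℝ) ^ (10 * b₀) * (U * SS μ M m g a j ^ 6) :=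
        mul_le_mul_of_nonneg_left (h3.trans h4) (by positivity)
    _ = _ := by ring

theorem one_level {Ω : Type} [MeasurableSpace Ω] {μ : Measure Ω} [IsFiniteMeasure μ] {M m : ℕ} {g : ℕ → ℕ → Ω → ℂ}
    (hg : Bas M m g) (hM : 1 ≤ M) {a b₀ j : ℕ} (hj : j < M ^ a) (hb : a + 1 + b₀ ≤ m) {U : ℝ} (hU : 0 ≤ U)
    (h : BilB μ M m g a b₀ b₀ U) :
    n12 μ (g a j) ^ 6 ≤ 2 ^ 47 * ∑ r ∈ Finset.range M, n12 μ (g (a + 1) (M * j + r)) ^ 6 +
      2 ^ 23 * (M : ℝ) ^ (18 + 10 * b₀) * U * SS μ M m g a j ^ 6 := by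
  classical
  set W : ℝ := (M : ℝ) ^ (10 * b₀) * U * SS μ M m g a j ^ 6 with hW
  have hS0 : 0 ≤ SS μ M m g a j := SS_nonneg μ M m g a j
  have hW0 : 0 ≤ W := by positivity
  have hint : ∀ k k', Integrable (fun ω => ‖g (a + 1) k ω‖ ^ 6 * ‖g (a + 1) k' ω‖ ^ 6) μ :=
    fun k k' => intg (hg.meas _ k) (hg.meas _ k') (hg.bdd _ k) (hg.bdd _ k') 6 6
  have hint12 : ∀ s k, Integrable (fun ω => ‖g s k ω‖ ^ 12) μ := by
    intro s k
    have := intg (μ := μ) (hg.meas s k) (hg.meas s k) (hg.bdd s k) (hg.bdd s k) 12 0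
    simpa using this
  have hint_ite : ∀ r r', Integrable (fun ω => if sep r r' then
      ‖g (a + 1) (M * j + r) ω‖ ^ 6 * ‖g (a + 1) (M * j + r') ω‖ ^ 6 else 0) μ := by
    intro r r'
    by_cases hs : sep r r'
    · simp only [if_pos hs]
      exact hint _ _
    · simp only [if_neg hs]
      exact integrable_zero _ _ _
  rw [n12_six]
  have hpt : ∀ ω, ‖g a j ω‖ ^ 12 ≤ 2 ^ 47 * ∑ r ∈ Finset.range M, ‖g (a + 1) (M * j + r) ω‖ ^ 12 +
      2 ^ 23 * (M : ℝ) ^ 16 * ∑ r ∈ Finset.range M, ∑ r' ∈ Finset.range M,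
        (if sep r r' then ‖g (a + 1) (M * j + r) ω‖ ^ 6 * ‖g (a + 1) (M * j + r') ω‖ ^ 6 else 0) := by
    intro ω
    rw [hg.add a (by omega) j hj ω]
    exact bn12 hM (fun r => g (a + 1) (M * j + r) ω)
  have hI1 : Integrable (fun ω => (2 : ℝ) ^ 47 * ∑ r ∈ Finset.range M,
      ‖g (a + 1) (M * j + r) ω‖ ^ 12) μ :=
    (integrable_finsetSum _ fun r _ => hint12 _ _).const_mul _
  have hI2 : Integrable (fun ω => (2 : ℝ) ^ 23 * (M : ℝ) ^ 16 * ∑ r ∈ Finset.range M,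
      ∑ r' ∈ Finset.range M, (if sep r r' then
        ‖g (a + 1) (M * j + r) ω‖ ^ 6 * ‖g (a + 1) (M * j + r') ω‖ ^ 6 else 0)) μ :=
    (integrable_finsetSum _ fun r _ => integrable_finsetSum _ fun r' _ =>
      hint_ite r r').const_mul _
  refine (integral_mono (hint12 a j) (hI1.add hI2) hpt).trans ?_
  have e1 : ∫ ω, ((fun ω => (2 : ℝ) ^ 47 * ∑ r ∈ Finset.range M,
      ‖g (a + 1) (M * j + r) ω‖ ^ 12) + fun ω => (2 : ℝ) ^ 23 * (M : ℝ) ^ 16 * ∑ r ∈ Finset.range M,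
      ∑ r' ∈ Finset.range M, (if sep r r' then
        ‖g (a + 1) (M * j + r) ω‖ ^ 6 * ‖g (a + 1) (M * j + r') ω‖ ^ 6 else 0)) ω ∂μ =
      2 ^ 47 * ∑ r ∈ Finset.range M, n12 μ (g (a + 1) (M * j + r)) ^ 6 +
      2 ^ 23 * (M : ℝ) ^ 16 * ∑ r ∈ Finset.range M, ∑ r' ∈ Finset.range M,
        (if sep r r' then ∫ ω, ‖g (a + 1) (M * j + r) ω‖ ^ 6 *
          ‖g (a + 1) (M * j + r') ω‖ ^ 6 ∂μ else 0) := by
    rw [integral_add' hI1 hI2, integral_const_mul, integral_const_mul,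
      integral_finsetSum _ (fun r _ => hint12 _ _),
      integral_finsetSum _ (fun r _ => integrable_finsetSum _ fun r' _ => hint_ite r r')]
    congr 1
    · congr 1
      exact Finset.sum_congr rfl fun r _ => (n12_six μ _).symm
    · congr 1
      refine Finset.sum_congr rfl fun r _ => ?_
      rw [integral_finsetSum _ (fun r' _ => hint_ite r r')]
      refine Finset.sum_congr rfl fun r' _ => ?_
      by_cases hs : sep r r'
      · simp only [if_pos hs]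
      · simp only [if_neg hs, integral_zero]
  rw [e1]
  have e2 : ∑ r ∈ Finset.range M, ∑ r' ∈ Finset.range M,
        (if sep r r' then ∫ ω, ‖g (a + 1) (M * j + r) ω‖ ^ 6 *
          ‖g (a + 1) (M * j + r') ω‖ ^ 6 ∂μ else 0) ≤ (M : ℝ) ^ 2 * W := by
    calc _ ≤ ∑ r ∈ Finset.range M, ∑ r' ∈ Finset.range M, W := by
          refine Finset.sum_le_sum fun r hr => Finset.sum_le_sum fun r' hr' => ?_
          split_ifs with hs
          · exact b5_Q hg hj hb hU h (Finset.mem_range.1 hr) (Finset.mem_range.1 hr') hs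
          · exact hW0
      _ = (M : ℝ) ^ 2 * W := by
          rw [Finset.sum_const, Finset.sum_const, Finset.card_range, nsmul_eq_mul, nsmul_eq_mul]
          ring
  have e3 : 2 ^ 23 * (M : ℝ) ^ (18 + 10 * b₀) * U * SS μ M m g a j ^ 6 =
      2 ^ 23 * (M : ℝ) ^ 16 * ((M : ℝ) ^ 2 * W) := by
    rw [hW, pow_add]
    ring
  rw [e3]
  gcongr

end Pool.Agent.Helper78.CD
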